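import Pool.Agent.Helper94.TC.Defs

/-!
# Groups of infinite cohomological dimension
-/

set_option autoImplicit false

open CategoryTheory

namespace Pool.Agent.Helper94.TC

/-- the group of order two -/
abbrev C2 : Type := Multiplicative (ZMod 2)

theorem C2_gen : ∀ x : C2, x ∈ Subgroup.zpowers (Multiplicative.ofAdd (1 : ZMod 2)) := by
  intro x
  rw [Subgroup.mem_zpowers_iff]
  refine ⟨(Multiplicative.toAdd x).val, ?_⟩
  rw [← ofAdd_zsmul]
  apply Multiplicative.toAdd.injective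
  simp

theorem C2_nontrivial (n : ℕ) (hn : Even n) (h0 : n ≠ 0) :
    Nontrivial (groupCohomology (Rep.trivial ℤ C2 ℤ) n) := by
  have : NeZero n := ⟨h0⟩
  set A : Rep.{0} ℤ C2 := Rep.trivial ℤ C2 ℤ with hA
  set g : C2 := Multiplicative.ofAdd (1 : ZMod 2) with hg
  have hx : (1 : ℤ) ∈ LinearMap.ker (Rep.applyAsHom A g - 𝟙 A).hom.toLinearMap := by
    simp [Rep.applyAsHom, Rep.sub_hom]
  refine ⟨⟨Rep.FiniteCyclicGroup.groupCohomologyπEven A g C2_gen n hn ⟨(1 : ℤ), hx⟩, 0, ?_⟩⟩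
  intro h
  rw [Rep.FiniteCyclicGroup.groupCohomologyπEven_eq_zero_iff] at h
  obtain ⟨y, hy⟩ := h
  have h3 : (Rep.Hom.hom A.norm).toLinearMap y = ((2 : ℤ)) * (y : ℤ) := by
    simp [Rep.norm, Representation.norm]
  have h2 : ((2 : ℤ)) * (y : ℤ) = 1 := h3.symm.trans hy
  omega

theorem retract_nontrivial {G : Type} [Group G] (i : C2 →* G) (π : G →* C2)
    (hπi : π.comp i = MonoidHom.id C2) (n : ℕ)
    (h : Nontrivial (groupCohomology (Rep.trivial ℤ C2 ℤ) n)) :
    Nontrivial (groupCohomology (Rep.trivial ℤ G ℤ) n) := by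
  set φ : Rep.res π (Rep.trivial ℤ C2 ℤ) ⟶ Rep.trivial ℤ G ℤ := 𝟙 _ with hφ
  set ψ : Rep.res i (Rep.trivial ℤ G ℤ) ⟶ Rep.trivial ℤ C2 ℤ := 𝟙 _ with hψ
  have h1 := groupCohomology.map_comp π i φ ψ n
  have h2 : groupCohomology.map (π.comp i) ((Rep.resFunctor i).map φ ≫ ψ) n =
      groupCohomology.map (A := Rep.trivial ℤ C2 ℤ) (B := Rep.trivial ℤ C2 ℤ)
        (MonoidHom.id C2) (𝟙 (Rep.trivial ℤ C2 ℤ)) n :=
    groupCohomology.map_congr (A := Rep.trivial ℤ C2 ℤ) (B := Rep.trivial ℤ C2 ℤ) hπi rfl n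
  rw [groupCohomology.map_id] at h2
  rw [h2] at h1
  have hinj : Function.Injective (groupCohomology.map π φ n) := by
    intro x y hxy
    have h3 := congrArg (fun f => (ConcreteCategory.hom f) x) h1
    have h4 := congrArg (fun f => (ConcreteCategory.hom f) y) h1
    simp only [ConcreteCategory.comp_apply, ConcreteCategory.id_apply] at h3 h4
    rw [h3, h4, hxy]
  exact hinj.nontrivial

end Pool.Agent.Helper94.TC
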