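import Pool.Agent.Helper94.TC.Discrete

/-!
# No equivariant covers of `ℝ^N` by `N` sets
-/

set_option autoImplicit false

open Filter Topology

namespace Pool.Agent.Helper94.TC

/-- `ℝ^N` is not covered by `N` open `ℤ^N`-invariant sets `V_i` carrying locally constant functions
`h_i` with `h_i (x + l) = h_i x + l_i`. -/
theorem core {N : ℕ} (V : Fin N → Set (Fin N → ℝ)) (h : Fin N → (Fin N → ℝ) → ℤ)
    (hopen : ∀ i, IsOpen (V i)) (hcov : ∀ x, ∃ i, x ∈ V i)
    (hloc : ∀ i, ∀ x ∈ V i, ∀ᶠ y in 𝓝 x, h i y = h i x)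
    (hper : ∀ i, ∀ x ∈ V i, ∀ l : Fin N → ℤ,
      (x + fun j => (l j : ℝ)) ∈ V i ∧ h i (x + fun j => (l j : ℝ)) = h i x + l i) : False := by
  classical
  -- Lebesgue number
  set c : Fin N × ℤ → Set (Fin N → ℝ) := fun t => {x | x ∈ V t.1 ∧ h t.1 x = t.2} with hc
  have hcopen : ∀ t, IsOpen (c t) := by
    rintro ⟨i, n⟩
    rw [isOpen_iff_mem_nhds]
    rintro x ⟨hx, hn⟩
    filter_upwards [(hopen i).mem_nhds hx, hloc i x hx] with y hy1 hy2
    exact ⟨hy1, by rw [← hn]; exact hy2⟩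
  set K : Set (Fin N → ℝ) := Set.pi Set.univ (fun _ => Set.Icc (0 : ℝ) 1) with hK
  have hKc : IsCompact K := isCompact_univ_pi fun _ => isCompact_Icc
  have hKcov : K ⊆ ⋃ t, c t := by
    intro x _
    obtain ⟨i, hi⟩ := hcov x
    exact Set.mem_iUnion.2 ⟨(i, h i x), hi, rfl⟩
  obtain ⟨δ, hδ, hball⟩ := lebesgue_number_lemma_of_metric hKc hcopen hKcov
  have hball' : ∀ x : Fin N → ℝ, ∃ t : Fin N × ℤ, Metric.ball x δ ⊆ c t := by
    intro x
    set l : Fin N → ℤ := fun j => ⌊x j⌋ with hl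
    set x0 : Fin N → ℝ := fun j => Int.fract (x j) with hx0
    have hx0K : x0 ∈ K := by
      intro j _
      exact ⟨Int.fract_nonneg _, (Int.fract_lt_one _).le⟩
    obtain ⟨⟨i, n⟩, ht⟩ := hball x0 hx0K
    refine ⟨(i, n + l i), ?_⟩
    intro y hy
    have hxl : x = x0 + fun j => (l j : ℝ) := by
      funext j
      simp only [hx0, hl, Pi.add_apply]
      exact (Int.fract_add_floor (x j)).symm
    set y0 : Fin N → ℝ := fun j => y j - l j with hy0
    have hy0y : y = y0 + fun j => (l j : ℝ) := by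
      funext j; simp [hy0]
    have hy0b : y0 ∈ Metric.ball x0 δ := by
      rw [Metric.mem_ball] at hy ⊢
      rwa [hxl, hy0y, dist_add_right] at hy
    obtain ⟨h1, h2⟩ := ht hy0b
    obtain ⟨h3, h4⟩ := hper i y0 h1 l
    rw [← hy0y] at h3 h4
    simp only at h2
    exact ⟨h3, by rw [h4, h2]⟩
  obtain ⟨R', hR'⟩ := exists_nat_one_div_lt hδ
  set R : ℕ := R' + 1 with hR
  have hRpos : (0 : ℝ) < R := by rw [hR]; positivity
  have : NeZero R := ⟨by omega⟩
  set sc : (Fin N → ℤ) → (Fin N → ℝ) := fun x j => (x j : ℝ) / R with hsc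
  set v : Fin N → (Fin N → ℤ) → ℤ := fun j x => if sc x ∈ V j then h j (sc x) else x j / R with hv
  have hscadd : ∀ x (l : Fin N → ℤ), sc (x + (R : ℤ) • l) = sc x + fun j => (l j : ℝ) := by
    intro x l
    funext j
    simp only [hsc, Pi.add_apply, Pi.smul_apply, smul_eq_mul]
    push_cast
    field_simp
  have hQ : QPer R v := by
    intro j x l
    simp only [hv, hscadd]
    by_cases h1 : sc x ∈ V j
    · obtain ⟨h2, h3⟩ := hper j _ h1 l
      rw [if_pos h1, if_pos h2, h3]
    · have h2 : ¬ (sc x + fun j => (l j : ℝ)) ∈ V j := by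
        intro h3
        apply h1
        have h4 := (hper j _ h3 (-l)).1
        have h5 : (sc x + fun j => (l j : ℝ)) + (fun j => (((-l) j : ℤ) : ℝ)) = sc x := by
          funext j; simp
        rwa [h5] at h4
      rw [if_neg h1, if_neg h2]
      have hR0 : (R : ℤ) ≠ 0 := by exact_mod_cast NeZero.ne R
      simp only [Pi.add_apply, Pi.smul_apply, smul_eq_mul]
      rw [Int.add_mul_ediv_left _ _ hR0]
  obtain ⟨x, π, hx⟩ := exists_path R v hQ
  obtain ⟨⟨i, n⟩, ht⟩ := hball' (sc x)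
  have hval : ∀ m, v i (vtx x π m) = n := by
    intro m
    have h1 : sc (vtx x π m) ∈ Metric.ball (sc x) δ := by
      rw [Metric.mem_ball, dist_pi_lt_iff hδ]
      intro j
      rw [Real.dist_eq]
      simp only [hsc, vtx]
      have h2 : ((x j + if ((Equiv.symm π) j : ℕ) < m then 1 else 0 : ℤ) : ℝ) / R - (x j : ℝ) / R =
          (if ((Equiv.symm π) j : ℕ) < m then 1 else 0) / R := by
        push_cast
        ring
      rw [h2]
      have h3 : (1 : ℝ) / R < δ := by
        rw [hR]; push_cast; exact hR'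
      split_ifs
      · rwa [abs_of_pos (by positivity)]
      · simpa using hδ
    obtain ⟨h2, h3⟩ := ht h1
    simp only at h2 h3
    simp only [hv]
    rw [if_pos h2, h3]
  exact hx i (by rw [hval, hval])

end Pool.Agent.Helper94.TC
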