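import Mathlib

/-!
# Topological complexity, Milnor's joins, their orbit spaces, and the growth function
-/

set_option autoImplicit false

open unitInterval

namespace Pool.Agent.Helper94.TC

/-- `HasPlanner W`: there is a continuous section over `W ⊆ X × X` of the path fibration
`X^[0,1] → X × X`, `γ ↦ (γ 0, γ 1)` (paths with the compact-open topology). -/
def HasPlanner {X : Type} [TopologicalSpace X] (W : Set (X × X)) : Prop :=
  ∃ s : C(W, C(I, X)), ∀ p, s p 0 = p.1.1 ∧ s p 1 = p.1.2

/-- `TCLe X k`: the product `X × X` is covered by `k + 1` open sets, each with a continuous section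
of the path fibration. -/
def TCLe (X : Type) [TopologicalSpace X] (k : ℕ) : Prop :=
  ∃ U : Fin (k + 1) → Set (X × X), (∀ i, IsOpen (U i)) ∧ (∀ p, ∃ i, p ∈ U i) ∧
    ∀ i, HasPlanner (U i)

/-- Farber's topological complexity (reduced): the least `k` with `TCLe X k` (or `∞`) -/
noncomputable def topCpx (X : Type) [TopologicalSpace X] : ℕ∞ := ⨅ (k : ℕ) (_ : TCLe X k), (k : ℕ∞)

/-- The `(n+1)`-fold join `E_nG = G * ⋯ * G` of the discrete space `G`: a point is a formal
combination `t_0 g_0 + ⋯ + t_n g_n` with `t_i ≥ 0`, `t_0 + ⋯ + t_n = 1`, where `g_i` is disregarded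
if `t_i = 0`. It is encoded by the matrix `τ` with `τ i a = t_i` if `a = g_i` and `τ i a = 0`
otherwise. -/
@[ext] structure Join (n : ℕ) (G : Type) where
  τ : Fin (n + 1) → G → ℝ
  nonneg : ∀ i a, 0 ≤ τ i a
  unique : ∀ i a b, τ i a ≠ 0 → τ i b ≠ 0 → a = b
  sum_eq : ∑ i, ∑ᶠ a, τ i a = 1

namespace Join

variable {n : ℕ} {G : Type}

/-- barycentric coordinates `t_i` -/
noncomputable def t (x : Join n G) (i : Fin (n + 1)) : ℝ := ∑ᶠ a, x.τ i a

/-- Milnor's topology on the join: the coarsest one for which all the functions `t_i` and `τ i a`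
are continuous. (Equivalently: the coarsest one for which the `t_i` and the label maps
`g_i : {t_i > 0} → G` are continuous, since `{τ i a > 0} = {t_i > 0, g_i = a}` and
`0 ≤ τ i a ≤ t_i`.) -/
noncomputable instance : TopologicalSpace (Join n G) :=
  TopologicalSpace.induced (fun x => (x.t, x.τ)) inferInstance

/-- the diagonal action by left translations of the labels: `g • ∑ t_i g_i = ∑ t_i (g g_i)` -/
instance [Group G] : MulAction G (Join n G) where
  smul g x :=
    { τ := fun i a => x.τ i (g⁻¹ * a)
      nonneg := fun i a => x.nonneg i _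
      unique := fun i a b ha hb => mul_left_cancel (x.unique i _ _ ha hb)
      sum_eq := by
        rw [← x.sum_eq]
        refine Finset.sum_congr rfl fun i _ => ?_
        exact finsum_comp_equiv (Equiv.mulLeft g⁻¹) (f := fun a => x.τ i a) }
  one_smul x := by
    ext i a
    change x.τ i (1⁻¹ * a) = x.τ i a
    simp
  mul_smul g h x := by
    ext i a
    change x.τ i ((g * h)⁻¹ * a) = x.τ i (h⁻¹ * (g⁻¹ * a))
    rw [mul_inv_rev, mul_assoc]

end Join

/-- the orbit space `B_nG = E_nG / G` with the quotient topology -/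
abbrev BG (n : ℕ) (G : Type) [Group G] : Type := Quotient (MulAction.orbitRel G (Join n G))

/-- infinite cohomological dimension: `H^n(G; M) ≠ 0` for arbitrarily large `n` and suitable
`G`-modules `M` -/
def InfiniteCD (G : Type) [Group G] : Prop :=
  ∀ N : ℕ, ∃ n, N ≤ n ∧ ∃ M : Rep.{0} ℤ G, Nontrivial (groupCohomology M n)

/-- the growth function `α_G(n) = |{k ≥ 1 : TC(B_kG) ≤ n}|` -/
noncomputable def growth (G : Type) [Group G] (n : ℕ) : ℕ :=
  Set.ncard {k : ℕ | 1 ≤ k ∧ topCpx (BG k G) ≤ n}

end Pool.Agent.Helper94.TC
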