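import Mathlib

/-!
# A discrete cup product on the torus grid

For functions `v_0, …, v_{N-1}` on `ℤ^N` with `v_j (x + R l) = v_j x + l_j`, the alternating sum
over lattice paths `x_0, …, x_N` of `∏_j (v_j (x_{j+1}) - v_j (x_j))` over a period box equals `1`.
-/

set_option autoImplicit false
set_option linter.unusedSectionVars false

open Finset Equiv

namespace Pool.Agent.Helper94.TC

/-- the `i`-th vertex of the lattice path from `c` with step order `π` -/
def vtx {N : ℕ} (c : Fin N → ℤ) (π : Perm (Fin N)) (i : ℕ) : Fin N → ℤ :=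
  fun a => c a + if (π.symm a : ℕ) < i then 1 else 0

theorem vtx_zero {N : ℕ} (c : Fin N → ℤ) (π : Perm (Fin N)) : vtx c π 0 = c := by
  funext a; simp [vtx]

theorem vtx_add {N : ℕ} (c d : Fin N → ℤ) (π : Perm (Fin N)) (i : ℕ) :
    vtx (c + d) π i = vtx c π i + d := by
  funext a; simp only [vtx, Pi.add_apply]; ring

/-- swapping two consecutive steps changes only one vertex -/
theorem vtx_swap {N : ℕ} (c : Fin N → ℤ) (π : Perm (Fin N)) (a b : Fin N)
    (hab : (b : ℕ) = a + 1) (i : ℕ) (hi : i ≠ a + 1) :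
    vtx c (π * swap a b) i = vtx c π i := by
  funext x
  simp only [vtx]
  congr 1
  have h1 : (π * swap a b).symm x = swap a b (π.symm x) := by
    rw [Equiv.symm_apply_eq]
    simp
  rw [h1]
  congr 1
  apply propext
  by_cases h2 : π.symm x = a
  · rw [h2, swap_apply_left]; omega
  by_cases h3 : π.symm x = b
  · rw [h3, swap_apply_right]; omega
  rw [swap_apply_of_ne_of_ne h2 h3]

/-- the telescoping products -/
def P {N : ℕ} (v : Fin N → (Fin (N + 1) → ℤ) → ℤ) (m : ℕ) (c : Fin (N + 1) → ℤ)
    (π : Perm (Fin (N + 1))) : ℤ :=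
  ∏ j : Fin N, if (j : ℕ) < m then v j (vtx c π (j + 1)) - v j (vtx c π j)
    else v j (vtx c π (j + 2)) - v j (vtx c π (j + 1))

theorem P_add {N : ℕ} (v : Fin N → (Fin (N + 1) → ℤ) → ℤ) {m : ℕ} (hm : m < N)
    (c : Fin (N + 1) → ℤ) :
    ∑ π : Perm (Fin (N + 1)), ((Perm.sign π : ℤˣ) : ℤ) * (P v m c π + P v (m + 1) c π) = 0 := by
  classical
  set Q : Perm (Fin (N + 1)) → ℤ := fun π =>
    ∏ j : Fin N, if (j : ℕ) < m then v j (vtx c π (j + 1)) - v j (vtx c π j)
      else if (j : ℕ) = m then v j (vtx c π (j + 2)) - v j (vtx c π j)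
      else v j (vtx c π (j + 2)) - v j (vtx c π (j + 1)) with hQ
  have hPQ : ∀ π, P v m c π + P v (m + 1) c π = Q π := by
    intro π
    apply Finset.prod_add_prod_eq (Finset.mem_univ (⟨m, hm⟩ : Fin N))
    · simp
    · intro j _ hj
      have hj' : (j : ℕ) ≠ m := fun h => hj (Fin.ext h)
      simp only [hj', if_false]
    · intro j _ hj
      have hj' : (j : ℕ) ≠ m := fun h => hj (Fin.ext h)
      by_cases h1 : (j : ℕ) < m
      · rw [if_pos (by omega), if_pos h1]
      · rw [if_neg (by omega), if_neg h1, if_neg hj']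
  simp_rw [hPQ]
  set a : Fin (N + 1) := ⟨m, by omega⟩ with ha
  set b : Fin (N + 1) := ⟨m + 1, by omega⟩ with hb
  have hab : a ≠ b := by
    intro h
    have := congrArg Fin.val h
    simp [ha, hb] at this
  have hQs : ∀ π, Q (π * swap a b) = Q π := by
    intro π
    simp only [hQ]
    refine Finset.prod_congr rfl fun j _ => ?_
    have hv : ∀ i : ℕ, i ≠ m + 1 → vtx c (π * swap a b) i = vtx c π i :=
      fun i hi => vtx_swap c π a b rfl i hi
    by_cases h1 : (j : ℕ) < m
    · rw [if_pos h1, if_pos h1, hv _ (by omega), hv _ (by omega)]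
    · rw [if_neg h1, if_neg h1]
      by_cases h2 : (j : ℕ) = m
      · rw [if_pos h2, if_pos h2, hv _ (by omega), hv _ (by omega)]
      · rw [if_neg h2, if_neg h2, hv _ (by omega), hv _ (by omega)]
  have h1 : ∑ π : Perm (Fin (N + 1)), ((Perm.sign π : ℤˣ) : ℤ) * Q π =
      ∑ π : Perm (Fin (N + 1)), ((Perm.sign (π * swap a b) : ℤˣ) : ℤ) * Q (π * swap a b) :=
    (Fintype.sum_equiv (Equiv.mulRight (swap a b)) _ _ (fun π => rfl)).symm
  have h2 : ∑ π : Perm (Fin (N + 1)), ((Perm.sign (π * swap a b) : ℤˣ) : ℤ) * Q (π * swap a b) =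
      -∑ π : Perm (Fin (N + 1)), ((Perm.sign π : ℤˣ) : ℤ) * Q π := by
    rw [← Finset.sum_neg_distrib]
    refine Finset.sum_congr rfl fun π _ => ?_
    rw [hQs, Perm.sign_mul, Perm.sign_swap hab]
    push_cast
    ring
  rw [h2] at h1
  omega

/-- moving the gap from the left end to the right end -/
theorem P_telescope {N : ℕ} (v : Fin N → (Fin (N + 1) → ℤ) → ℤ) (c : Fin (N + 1) → ℤ) :
    ∑ π : Perm (Fin (N + 1)), ((Perm.sign π : ℤˣ) : ℤ) * P v 0 c π =
      (-1) ^ N * ∑ π : Perm (Fin (N + 1)), ((Perm.sign π : ℤˣ) : ℤ) * P v N c π := by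
  have h : ∀ m ≤ N, ∑ π : Perm (Fin (N + 1)), ((Perm.sign π : ℤˣ) : ℤ) * P v 0 c π =
      (-1) ^ m * ∑ π : Perm (Fin (N + 1)), ((Perm.sign π : ℤˣ) : ℤ) * P v m c π := by
    intro m
    induction m with
    | zero => intro _; simp
    | succ m ih =>
      intro hm
      rw [ih (by omega)]
      have h1 := P_add v (show m < N by omega) c
      simp_rw [mul_add] at h1
      rw [Finset.sum_add_distrib] at h1
      have h2 : ∑ π : Perm (Fin (N + 1)), ((Perm.sign π : ℤˣ) : ℤ) * P v m c π =
          -∑ π : Perm (Fin (N + 1)), ((Perm.sign π : ℤˣ) : ℤ) * P v (m + 1) c π := by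
        linear_combination h1
      rw [h2, pow_succ]
      ring
  exact h N le_rfl

section periodic

variable (R : ℕ) [NeZero R]

/-- congruence modulo `R` in every coordinate -/
def Cong {n : ℕ} (x y : Fin n → ℤ) : Prop := ∀ i, (R : ℤ) ∣ x i - y i

/-- periodic functions -/
def Per {n : ℕ} (f : (Fin n → ℤ) → ℤ) : Prop := ∀ x y, Cong R x y → f x = f y

/-- sum over a period box -/
def boxSum {n : ℕ} (f : (Fin n → ℤ) → ℤ) : ℤ :=
  ∑ c : Fin n → ZMod R, f (fun i => ((c i).val : ℤ))

theorem boxSum_shift {n : ℕ} {f : (Fin n → ℤ) → ℤ} (hf : Per R f) (e : Fin n → ℤ) :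
    boxSum R (fun c => f (c + e)) = boxSum R f := by
  unfold boxSum
  refine Fintype.sum_equiv (Equiv.addRight (fun i => ((e i : ℤ) : ZMod R))) _ _ fun c => ?_
  apply hf
  intro i
  rw [← ZMod.intCast_zmod_eq_zero_iff_dvd]
  simp

/-- quasi-periodic families -/
def QPer {n : ℕ} (v : Fin n → (Fin n → ℤ) → ℤ) : Prop :=
  ∀ j x (l : Fin n → ℤ), v j (x + (R : ℤ) • l) = v j x + l j

theorem exists_of_cong {n : ℕ} {x y : Fin n → ℤ} (h : Cong R x y) :
    ∃ l : Fin n → ℤ, x = y + (R : ℤ) • l := by
  choose l hl using h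
  refine ⟨l, ?_⟩
  funext i
  simp only [Pi.add_apply, Pi.smul_apply, smul_eq_mul]
  linarith [hl i]

/-- the alternating sum over all lattice paths in the torus -/
def T {N : ℕ} (v : Fin N → (Fin N → ℤ) → ℤ) : ℤ :=
  ∑ π : Perm (Fin N), ((Perm.sign π : ℤˣ) : ℤ) *
    boxSum R (fun c => ∏ j : Fin N, (v j (vtx c π (j + 1)) - v j (vtx c π j)))

theorem vtx_rot {N : ℕ} (c : Fin (N + 1) → ℤ) (π : Perm (Fin (N + 1))) (i : ℕ) (hi : i ≤ N) :
    vtx (c + Pi.single (π 0) 1) (π * finRotate (N + 1)) i = vtx c π (i + 1) := by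
  funext a
  simp only [vtx, Pi.add_apply, add_assoc]
  congr 1
  have h1 : (π * finRotate (N + 1)).symm a = (finRotate (N + 1)).symm (π.symm a) := by
    rw [Equiv.symm_apply_eq]
    simp
  rw [h1]
  set y := π.symm a with hy
  have ha : a = π y := by rw [hy]; simp
  by_cases h0 : y = 0
  · have h2 : (finRotate (N + 1)).symm y = Fin.last N := by
      rw [Equiv.symm_apply_eq, finRotate_last, h0]
    rw [h2, ha, h0, Pi.single_eq_same]
    simp only [Fin.val_last, Fin.val_zero]
    rw [if_neg (by omega), if_pos (by omega)]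
    ring
  · have h2 : (((finRotate (N + 1)).symm y : Fin (N + 1)) : ℕ) = y - 1 := by
      obtain ⟨z, hz⟩ : ∃ z, finRotate (N + 1) z = y := ⟨_, (finRotate (N + 1)).apply_symm_apply y⟩
      have hzl : z ≠ Fin.last N := by
        rintro rfl
        rw [finRotate_last] at hz
        exact h0 hz.symm
      have hz2 : (finRotate (N + 1)).symm y = z := by rw [Equiv.symm_apply_eq, hz]
      rw [hz2, ← hz]
      have hzlt : (z : ℕ) < N := by
        have h3 := z.2
        have h4 : (z : ℕ) ≠ N := fun h => hzl (Fin.ext (by simpa using h))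
        omega
      have h5 := finRotate_of_lt (n := N) hzlt
      have h6 : finRotate (N + 1) z = ⟨z + 1, by omega⟩ := h5
      rw [h6]
      simp
    have hne : a ≠ π 0 := by
      rw [ha]
      exact fun h => h0 (π.injective h)
    rw [Pi.single_eq_of_ne hne, h2, zero_add]
    have h3 : (y : ℕ) ≠ 0 := fun h => h0 (Fin.ext (by simpa using h))
    congr 1
    apply propext
    omega

theorem per_sub {n : ℕ} {w : (Fin n → ℤ) → ℤ} {b : (Fin n → ℤ) → ℤ}
    (hw : ∀ x (l : Fin n → ℤ), w (x + (R : ℤ) • l) = w x + b l)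
    (π : Perm (Fin n)) (i i' : ℕ) (c : Fin n → ℤ) (l : Fin n → ℤ) :
    w (vtx (c + (R : ℤ) • l) π i) - w (vtx (c + (R : ℤ) • l) π i') =
      w (vtx c π i) - w (vtx c π i') := by
  rw [vtx_add, vtx_add, hw, hw]
  ring

/-- The sum vanishes when the first function is periodic. -/
theorem T_periodic {N : ℕ} (u : (Fin (N + 1) → ℤ) → ℤ) (hu : Per R u)
    (v : Fin N → (Fin (N + 1) → ℤ) → ℤ) (b : Fin N → (Fin (N + 1) → ℤ) → ℤ)
    (hv : ∀ j x (l : Fin (N + 1) → ℤ), v j (x + (R : ℤ) • l) = v j x + b j l) :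
    ∑ π : Perm (Fin (N + 1)), ((Perm.sign π : ℤˣ) : ℤ) *
      boxSum R (fun c => (u (vtx c π 1) - u (vtx c π 0)) * P v 0 c π) = 0 := by
  classical
  -- the second part
  have hW2 : ∑ π : Perm (Fin (N + 1)), ((Perm.sign π : ℤˣ) : ℤ) *
      boxSum R (fun c => u (vtx c π 0) * P v 0 c π) =
      (-1) ^ N * ∑ π : Perm (Fin (N + 1)), ((Perm.sign π : ℤˣ) : ℤ) *
        boxSum R (fun c => u c * P v N c π) := by
    unfold boxSum
    simp_rw [Finset.mul_sum]
    rw [Finset.sum_comm]
    conv_rhs => rw [Finset.sum_comm]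
    refine Finset.sum_congr rfl fun c _ => ?_
    have h1 := P_telescope v (fun i => ((c i).val : ℤ))
    have h2 : ∀ π : Perm (Fin (N + 1)), ((Perm.sign π : ℤˣ) : ℤ) *
        (u (vtx (fun i => ((c i).val : ℤ)) π 0) * P v 0 (fun i => ((c i).val : ℤ)) π) =
        u (fun i => ((c i).val : ℤ)) *
          (((Perm.sign π : ℤˣ) : ℤ) * P v 0 (fun i => ((c i).val : ℤ)) π) := by
      intro π; rw [vtx_zero]; ring
    simp_rw [h2]
    rw [← Finset.mul_sum, h1, Finset.mul_sum, Finset.mul_sum]
    refine Finset.sum_congr rfl fun π _ => ?_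
    ring
  -- the first part
  have hPper : ∀ π, Per R (fun c => u c * P v N c π) := by
    intro π x y hxy
    obtain ⟨l, rfl⟩ := exists_of_cong R hxy
    have h1 : u (y + (R : ℤ) • l) = u y := hu _ _ hxy
    simp only [h1]
    congr 1
    unfold P
    refine Finset.prod_congr rfl fun j _ => ?_
    rw [if_pos j.2, if_pos j.2]
    exact per_sub R (hv j) π _ _ y l
  have hW1 : ∑ π : Perm (Fin (N + 1)), ((Perm.sign π : ℤˣ) : ℤ) *
      boxSum R (fun c => u (vtx c π 1) * P v 0 c π) =
      (-1) ^ N * ∑ π : Perm (Fin (N + 1)), ((Perm.sign π : ℤˣ) : ℤ) *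
        boxSum R (fun c => u c * P v N c π) := by
    rw [Finset.mul_sum]
    refine Fintype.sum_equiv (Equiv.mulRight (finRotate (N + 1))) _ _ fun π => ?_
    have h1 : ((Perm.sign (π * finRotate (N + 1)) : ℤˣ) : ℤ) =
        (-1) ^ N * ((Perm.sign π : ℤˣ) : ℤ) := by
      rw [Perm.sign_mul, sign_finRotate]
      push_cast
      ring
    have h2 : boxSum R (fun c => u (vtx c π 1) * P v 0 c π) =
        boxSum R (fun c => u (c + Pi.single (π 0) 1) *
          P v N (c + Pi.single (π 0) 1) (π * finRotate (N + 1))) := by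
      unfold boxSum
      refine Finset.sum_congr rfl fun c _ => ?_
      set c' : Fin (N + 1) → ℤ := fun i => ((c i).val : ℤ) with hc'
      have h3 : vtx c' π 1 = c' + Pi.single (π 0) 1 := by
        rw [← vtx_rot c' π 0 (Nat.zero_le _), vtx_zero]
      dsimp only
      rw [h3]
      congr 1
      unfold P
      refine Finset.prod_congr rfl fun j _ => ?_
      rw [if_neg (by omega), if_pos j.2, vtx_rot c' π (j + 1) (by have := j.2; omega),
        vtx_rot c' π j (by have := j.2; omega)]
    rw [h2, boxSum_shift R (hPper (π * finRotate (N + 1)))]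
    simp only [Equiv.coe_mulRight]
    rw [h1]
    have h4 : ((-1 : ℤ)) ^ N * (-1) ^ N = 1 := by
      rw [← mul_pow]; norm_num
    linear_combination (-(((Perm.sign π : ℤˣ) : ℤ) *
      boxSum R (fun c => u c * P v N c (π * finRotate (N + 1))))) * h4
  have hsplit : ∀ π : Perm (Fin (N + 1)),
      boxSum R (fun c => (u (vtx c π 1) - u (vtx c π 0)) * P v 0 c π) =
      boxSum R (fun c => u (vtx c π 1) * P v 0 c π) -
        boxSum R (fun c => u (vtx c π 0) * P v 0 c π) := by
    intro π
    unfold boxSum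
    rw [← Finset.sum_sub_distrib]
    refine Finset.sum_congr rfl fun c _ => by ring
  simp_rw [hsplit, mul_sub]
  rw [Finset.sum_sub_distrib, hW1, hW2, sub_self]

/-- the floor function in the first coordinate -/
def fl {N : ℕ} (c : Fin (N + 1) → ℤ) : ℤ := c 0 / R

theorem fl_add {N : ℕ} (c l : Fin (N + 1) → ℤ) : fl R (c + (R : ℤ) • l) = fl R c + l 0 := by
  unfold fl
  have hR : (R : ℤ) ≠ 0 := by exact_mod_cast NeZero.ne R
  simp only [Pi.add_apply, Pi.smul_apply, smul_eq_mul]
  rw [Int.add_mul_ediv_left _ _ hR]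

theorem T_succ {N : ℕ} (v : Fin (N + 1) → (Fin (N + 1) → ℤ) → ℤ) :
    T R v = ∑ π : Perm (Fin (N + 1)), ((Perm.sign π : ℤˣ) : ℤ) *
      boxSum R (fun c => (v 0 (vtx c π 1) - v 0 (vtx c π 0)) * P (fun j => v j.succ) 0 c π) := by
  unfold T
  refine Finset.sum_congr rfl fun π _ => ?_
  congr 2
  funext c
  rw [Fin.prod_univ_succ]
  congr 1

theorem T_eq_one : ∀ (N : ℕ) (v : Fin N → (Fin N → ℤ) → ℤ), QPer R v → T R v = 1 := by
  classical
  intro N
  induction N with
  | zero =>
    intro v _
    unfold T boxSum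
    simp
  | succ N ih =>
    intro v hv
    rw [T_succ]
    have hRpos : 0 < R := Nat.pos_of_ne_zero (NeZero.ne R)
    -- split off the periodic part of the first function
    have hu : Per R (fun c => v 0 c - fl R c) := by
      intro x y hxy
      obtain ⟨l, rfl⟩ := exists_of_cong R hxy
      simp only
      rw [hv, fl_add]; ring
    have h1 := T_periodic R (fun c => v 0 c - fl R c) hu (fun j => v j.succ)
      (fun j l => l j.succ) (fun j x l => hv j.succ x l)
    have h2 : ∑ π : Perm (Fin (N + 1)), ((Perm.sign π : ℤˣ) : ℤ) *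
        boxSum R (fun c => (v 0 (vtx c π 1) - v 0 (vtx c π 0)) * P (fun j => v j.succ) 0 c π) =
        ∑ π : Perm (Fin (N + 1)), ((Perm.sign π : ℤˣ) : ℤ) *
        boxSum R (fun c => (fl R (vtx c π 1) - fl R (vtx c π 0)) *
          P (fun j => v j.succ) 0 c π) := by
      rw [← sub_eq_zero, ← Finset.sum_sub_distrib, ← h1]
      refine Finset.sum_congr rfl fun π _ => ?_
      rw [← mul_sub]
      congr 1
      unfold boxSum
      rw [← Finset.sum_sub_distrib]
      refine Finset.sum_congr rfl fun c _ => by ring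
    rw [h2]
    -- only permutations fixing `0` contribute
    have h3 : ∑ π : Perm (Fin (N + 1)), ((Perm.sign π : ℤˣ) : ℤ) *
        boxSum R (fun c => (fl R (vtx c π 1) - fl R (vtx c π 0)) *
          P (fun j => v j.succ) 0 c π) =
        ∑ e : Perm (Fin N), ((Perm.sign e : ℤˣ) : ℤ) *
          boxSum R (fun c => (fl R (vtx c (Perm.decomposeFin.symm (0, e)) 1) -
            fl R (vtx c (Perm.decomposeFin.symm (0, e)) 0)) *
          P (fun j => v j.succ) 0 c (Perm.decomposeFin.symm (0, e))) := by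
      rw [← Equiv.sum_comp (Perm.decomposeFin (n := N)).symm, Fintype.sum_prod_type,
        Finset.sum_eq_single (0 : Fin (N + 1))]
      · refine Finset.sum_congr rfl fun e _ => ?_
        rw [Perm.decomposeFin.symm_sign, if_pos rfl]
        simp
      · intro p _ hp
        refine Finset.sum_eq_zero fun e _ => ?_
        have h4 : ∀ c : Fin (N + 1) → ℤ, fl R (vtx c (Perm.decomposeFin.symm (p, e)) 1) =
            fl R (vtx c (Perm.decomposeFin.symm (p, e)) 0) := by
          intro c
          unfold fl vtx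
          have h5 : (Perm.decomposeFin.symm (p, e)).symm 0 ≠ 0 := by
            intro h6
            rw [Equiv.symm_apply_eq, Perm.decomposeFin_symm_apply_zero] at h6
            exact hp h6.symm
          have h7 : (((Perm.decomposeFin.symm (p, e)).symm 0 : Fin (N + 1)) : ℕ) ≠ 0 :=
            fun h => h5 (Fin.ext (by simpa using h))
          rw [if_neg (by omega), if_neg (by omega)]
        unfold boxSum
        simp [h4]
      · intro h; exact absurd (Finset.mem_univ _) h
    rw [h3]
    -- restrict to the slice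
    have h4 : QPer R (fun (j : Fin N) (c : Fin N → ℤ) => v j.succ (Fin.cons (R : ℤ) c)) := by
      intro j x l
      have h5 : (Fin.cons (R : ℤ) (x + (R : ℤ) • l) : Fin (N + 1) → ℤ) =
          Fin.cons (R : ℤ) x + (R : ℤ) • (Fin.cons 0 l : Fin (N + 1) → ℤ) := by
        funext i
        refine Fin.cases ?_ (fun i => ?_) i
        · simp
        · simp
      dsimp only
      rw [h5, hv]
      simp
    rw [← ih _ h4]
    unfold T
    refine Finset.sum_congr rfl fun e _ => ?_
    congr 1
    unfold boxSum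
    set π := (Perm.decomposeFin.symm ((0 : Fin (N + 1)), e)) with hπ
    have hπ0 : π.symm 0 = 0 := by
      rw [Equiv.symm_apply_eq, hπ, Perm.decomposeFin_symm_apply_zero]
    have hπs : ∀ a : Fin N, π.symm a.succ = (e.symm a).succ := by
      intro a
      rw [Equiv.symm_apply_eq, hπ, Perm.decomposeFin_symm_apply_succ]
      simp
    rw [← (Fin.consEquiv (fun _ => ZMod R)).sum_comp, Fintype.sum_prod_type,
      Finset.sum_eq_single (-1 : ZMod R)]
    · refine Finset.sum_congr rfl fun c _ => ?_
      set c' : Fin N → ℤ := fun i => ((c i).val : ℤ) with hc'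
      have hval : ((-1 : ZMod R).val : ℤ) = R - 1 := by
        obtain ⟨q, hq⟩ : ∃ q, R = q + 1 := ⟨R - 1, by omega⟩
        subst hq
        rw [ZMod.val_neg_one]
        push_cast; ring
      have hcons : (fun i => (((Fin.consEquiv (fun _ => ZMod R)) (-1, c) i).val : ℤ)) =
          (Fin.cons ((R : ℤ) - 1) c' : Fin (N + 1) → ℤ) := by
        funext i
        refine Fin.cases ?_ (fun i => ?_) i
        · simpa using hval
        · simp [hc']
      rw [hcons]
      have hv1 : ∀ i : ℕ, vtx (Fin.cons ((R : ℤ) - 1) c' : Fin (N + 1) → ℤ) π (i + 1) =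
          Fin.cons (R : ℤ) (vtx c' e i) := by
        intro i
        funext a
        refine Fin.cases ?_ (fun a => ?_) a
        · simp [vtx, hπ0]
        · simp only [vtx, hπs, Fin.cons_succ, Fin.val_succ]
          congr 1
          congr 1
          apply propext
          omega
      have hfl : fl R (vtx (Fin.cons ((R : ℤ) - 1) c' : Fin (N + 1) → ℤ) π 1) -
          fl R (vtx (Fin.cons ((R : ℤ) - 1) c' : Fin (N + 1) → ℤ) π 0) = 1 := by
        have h5 := hv1 0
        rw [zero_add] at h5
        rw [h5, vtx_zero, vtx_zero]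
        unfold fl
        simp only [Fin.cons_zero]
        have hR : (R : ℤ) ≠ 0 := by exact_mod_cast NeZero.ne R
        rw [Int.ediv_self hR, Int.ediv_eq_zero_of_lt (by omega) (by omega)]
        norm_num
      dsimp only
      rw [hfl, one_mul]
      unfold P
      refine Finset.prod_congr rfl fun j _ => ?_
      rw [if_neg (by omega), hv1, hv1]
    · intro z _ hz
      refine Finset.sum_eq_zero fun c _ => ?_
      have hfl : fl R (vtx (fun i => (((Fin.consEquiv (fun _ => ZMod R)) (z, c) i).val : ℤ)) π 1) =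
          fl R (vtx (fun i => (((Fin.consEquiv (fun _ => ZMod R)) (z, c) i).val : ℤ)) π 0) := by
        unfold fl vtx
        rw [hπ0]
        have h5 : (Fin.consEquiv (fun _ => ZMod R)) (z, c) 0 = z := by simp
        dsimp only
        rw [h5]
        simp only [Fin.val_zero, zero_lt_one, if_true, lt_irrefl, if_false, add_zero]
        have h6 : z.val < R := ZMod.val_lt z
        have h7 : z.val ≠ R - 1 := by
          intro h
          apply hz
          obtain ⟨q, hq⟩ : ∃ q, R = q + 1 := ⟨R - 1, by omega⟩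
          subst hq
          apply ZMod.val_injective
          rw [ZMod.val_neg_one, h]
          simp
        rw [Int.ediv_eq_zero_of_lt (by omega) (by omega),
          Int.ediv_eq_zero_of_lt (by omega) (by omega)]
      dsimp only
      rw [hfl, sub_self, zero_mul]
    · intro h; exact absurd (Finset.mem_univ _) h

/-- Existence of a path on which no difference vanishes. -/
theorem exists_path {N : ℕ} (v : Fin N → (Fin N → ℤ) → ℤ) (hv : QPer R v) :
    ∃ (c : Fin N → ℤ) (π : Perm (Fin N)), ∀ j : Fin N,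
      v j (vtx c π (j + 1)) ≠ v j (vtx c π j) := by
  by_contra hcon
  push Not at hcon
  have h1 := T_eq_one R N v hv
  have h2 : T R v = 0 := by
    unfold T
    refine Finset.sum_eq_zero fun π _ => ?_
    unfold boxSum
    rw [Finset.sum_eq_zero, mul_zero]
    intro c _
    obtain ⟨j, hj⟩ := hcon (fun i => ((c i).val : ℤ)) π
    exact Finset.prod_eq_zero (Finset.mem_univ j) (by rw [hj, sub_self])
  rw [h1] at h2
  exact one_ne_zero h2

end periodic

end Pool.Agent.Helper94.TC
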