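import Pool.Agent.Helper94.TC.Join
import Pool.Agent.Helper94.TC.Core

/-!
# The lower bound for the topological complexity of `B_kG`
-/

set_option autoImplicit false
set_option linter.unusedSectionVars false

open Filter Topology unitInterval

namespace Pool.Agent.Helper94.TC

section map

variable {k : ℕ}

/-- weight functions on `ℝ^k` -/
noncomputable def bw (i : Fin (k + 1)) (u : Fin k → ℝ) : ℝ :=
  ∏ j, (Real.sin (Real.pi * (u j - (i : ℝ) / (k + 1)))) ^ 2

/-- labels on `ℝ^k` -/
noncomputable def lab (i : Fin (k + 1)) (u : Fin k → ℝ) : Fin k → ℤ :=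
  fun j => ⌊u j - (i : ℝ) / (k + 1)⌋

theorem bw_nonneg (i : Fin (k + 1)) (u : Fin k → ℝ) : 0 ≤ bw i u :=
  Finset.prod_nonneg fun _ _ => sq_nonneg _

theorem bw_continuous (i : Fin (k + 1)) : Continuous (bw (k := k) i) := by
  unfold bw
  fun_prop

theorem bw_add (i : Fin (k + 1)) (u : Fin k → ℝ) (a : Fin k → ℤ) :
    bw i (u + fun j => (a j : ℝ)) = bw i u := by
  unfold bw
  refine Finset.prod_congr rfl fun j _ => ?_
  have h1 : Real.pi * ((u + fun j => (a j : ℝ)) j - (i : ℝ) / (k + 1)) =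
      Real.pi * (u j - (i : ℝ) / (k + 1)) + (a j : ℤ) * Real.pi := by
    simp only [Pi.add_apply]; ring
  rw [h1, Real.sin_add_int_mul_pi, mul_pow]
  have h2 : (((-1 : ℝ)) ^ (a j)) ^ 2 = 1 := by
    rw [← zpow_natCast, ← zpow_mul, mul_comm, zpow_mul]
    norm_num
  rw [h2, one_mul]

theorem lab_add (i : Fin (k + 1)) (u : Fin k → ℝ) (a : Fin k → ℤ) :
    lab i (u + fun j => (a j : ℝ)) = a + lab i u := by
  funext j
  simp only [lab, Pi.add_apply]
  rw [show u j + (a j : ℝ) - (i : ℝ) / (k + 1) = (u j - (i : ℝ) / (k + 1)) + (a j : ℤ) by ring,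
    Int.floor_add_intCast, add_comm]

theorem exists_bw_pos (u : Fin k → ℝ) : ∃ i, bw i u ≠ 0 := by
  by_contra hcon
  push Not at hcon
  have h1 : ∀ i : Fin (k + 1), ∃ j : Fin k, ∃ n : ℤ, (n : ℝ) = u j - (i : ℝ) / (k + 1) := by
    intro i
    have h2 := hcon i
    unfold bw at h2
    obtain ⟨j, _, hj⟩ := Finset.prod_eq_zero_iff.1 h2
    have h3 := pow_eq_zero_iff (two_ne_zero) |>.1 hj
    obtain ⟨n, hn⟩ := Real.sin_eq_zero_iff.1 h3
    refine ⟨j, n, ?_⟩
    have h4 : Real.pi ≠ 0 := Real.pi_ne_zero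
    rw [mul_comm] at hn
    exact mul_left_cancel₀ h4 hn
  choose j n hn using h1
  obtain ⟨a, b, hab, hj⟩ := Fintype.exists_ne_map_eq_of_card_lt j (by simp)
  have h5 := hn a
  have h6 := hn b
  rw [hj] at h5
  have h7 : ((n b - n a : ℤ) : ℝ) * (k + 1) = (a : ℝ) - (b : ℝ) := by
    push_cast
    rw [h5, h6]
    field_simp
    ring
  have h8 : (n b - n a) * ((k : ℤ) + 1) = (a : ℤ) - (b : ℤ) := by exact_mod_cast h7
  have ha := a.2
  have hb := b.2
  have hne : (a : ℤ) - (b : ℤ) ≠ 0 := by
    intro h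
    apply hab
    apply Fin.ext
    omega
  rcases lt_trichotomy (n b - n a) 0 with h | h | h
  · nlinarith
  · rw [h, zero_mul] at h8
    exact hne h8.symm
  · nlinarith

theorem sum_bw_pos (u : Fin k → ℝ) : 0 < ∑ i, bw i u := by
  obtain ⟨i, hi⟩ := exists_bw_pos u
  exact Finset.sum_pos' (fun i _ => bw_nonneg i u)
    ⟨i, Finset.mem_univ _, lt_of_le_of_ne (bw_nonneg i u) (Ne.symm hi)⟩

/-- the labels are locally constant where the weights do not vanish -/
theorem lab_locally_const (i : Fin (k + 1)) (u : Fin k → ℝ) (hu : bw i u ≠ 0) :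
    ∀ᶠ w in 𝓝 u, lab i w = lab i u := by
  have h1 : ∀ j : Fin k, ∀ᶠ w in 𝓝 u, lab i w j = lab i u j := by
    intro j
    have h2 : Real.sin (Real.pi * (u j - (i : ℝ) / (k + 1))) ≠ 0 := by
      intro h
      apply hu
      unfold bw
      exact Finset.prod_eq_zero (Finset.mem_univ j) (by rw [h]; norm_num)
    set y := u j - (i : ℝ) / (k + 1) with hy
    have h3 : y ≠ ⌊y⌋ := by
      intro h
      apply h2
      rw [h, mul_comm]
      exact Real.sin_int_mul_pi _
    have h4 : (⌊y⌋ : ℝ) < y := lt_of_le_of_ne (Int.floor_le y) (Ne.symm h3)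
    have h5 : y < ⌊y⌋ + 1 := Int.lt_floor_add_one y
    have hcont : Continuous fun w : Fin k → ℝ => w j - (i : ℝ) / (k + 1) := by fun_prop
    have h6 : ∀ᶠ w in 𝓝 u, (⌊y⌋ : ℝ) < w j - (i : ℝ) / (k + 1) :=
      hcont.continuousAt.eventually (lt_mem_nhds h4)
    have h7 : ∀ᶠ w in 𝓝 u, w j - (i : ℝ) / (k + 1) < ⌊y⌋ + 1 :=
      hcont.continuousAt.eventually (gt_mem_nhds h5)
    filter_upwards [h6, h7] with w hw1 hw2
    unfold lab
    rw [← hy]
    exact Int.floor_eq_iff.2 ⟨hw1.le, hw2⟩
  filter_upwards [eventually_all.2 h1] with w hw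
  funext j
  exact hw j

variable {G : Type} [Group G] (φ : (Fin k → ℤ) → G)

open Classical in
/-- the map `ℝ^k → E_kG` -/
noncomputable def toJoin (u : Fin k → ℝ) : Join k G where
  τ i g := if g = φ (lab i u) then bw i u / ∑ i, bw i u else 0
  nonneg i g := by
    split_ifs
    · exact div_nonneg (bw_nonneg i u) (sum_bw_pos u).le
    · exact le_rfl
  unique i a b ha hb := by
    have h1 : a = φ (lab i u) := by
      by_contra h; exact ha (if_neg h)
    have h2 : b = φ (lab i u) := by
      by_contra h; exact hb (if_neg h)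
    rw [h1, h2]
  sum_eq := by
    have h1 : ∀ i : Fin (k + 1), ∑ᶠ g, (if g = φ (lab i u) then bw i u / ∑ i, bw i u else 0) =
        bw i u / ∑ i, bw i u := by
      intro i
      rw [finsum_eq_single _ (φ (lab i u)) (fun b hb => if_neg hb), if_pos rfl]
    simp_rw [h1]
    rw [← Finset.sum_div, div_self (sum_bw_pos u).ne']

theorem toJoin_τ (u : Fin k → ℝ) (i : Fin (k + 1)) :
    (toJoin φ u).τ i (φ (lab i u)) = bw i u / ∑ i, bw i u := if_pos rfl

theorem toJoin_τ_ne (u : Fin k → ℝ) (i : Fin (k + 1)) {g : G} (h : g ≠ φ (lab i u)) :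
    (toJoin φ u).τ i g = 0 := if_neg h

theorem toJoin_t (u : Fin k → ℝ) (i : Fin (k + 1)) :
    (toJoin φ u).t i = bw i u / ∑ i, bw i u := by
  classical
  have h1 : (toJoin φ u).t i = (toJoin φ u).τ i (φ (lab i u)) :=
    finsum_eq_single _ (φ (lab i u)) (fun b hb => toJoin_τ_ne φ u i hb)
  rw [h1, toJoin_τ]

theorem toJoin_continuous : Continuous (toJoin φ) := by
  classical
  have hc : ∀ i : Fin (k + 1), Continuous fun u : Fin k → ℝ => bw i u / ∑ i, bw i u := by
    intro i
    refine (bw_continuous i).div (continuous_finsetSum _ fun i _ => bw_continuous i) ?_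
    exact fun u => (sum_bw_pos u).ne'
  rw [Join.continuous_iff]
  refine ⟨fun i => ?_, fun i g => ?_⟩
  · simp_rw [toJoin_t]
    exact hc i
  · rw [continuous_iff_continuousAt]
    intro u
    by_cases h0 : bw i u = 0
    · -- squeeze
      have h1 : (toJoin φ u).τ i g = 0 := by
        by_cases h : g = φ (lab i u)
        · rw [h, toJoin_τ, h0, zero_div]
        · exact toJoin_τ_ne φ u i h
      unfold ContinuousAt
      dsimp only
      rw [h1]
      have h2 : Tendsto (fun w : Fin k → ℝ => bw i w / ∑ i, bw i w) (𝓝 u) (𝓝 0) := by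
        have := (hc i).tendsto u
        simpa [h0] using this
      refine squeeze_zero (fun w => (toJoin φ w).nonneg i g) (fun w => ?_) h2
      by_cases h : g = φ (lab i w)
      · rw [h, toJoin_τ]
      · rw [toJoin_τ_ne φ w i h]
        exact div_nonneg (bw_nonneg i w) (sum_bw_pos w).le
    · have h1 := lab_locally_const i u h0
      by_cases h : g = φ (lab i u)
      · have h2 : (fun w => (toJoin φ w).τ i g) =ᶠ[𝓝 u] fun w => bw i w / ∑ i, bw i w := by
          filter_upwards [h1] with w hw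
          rw [h, ← hw, toJoin_τ]
        exact ((hc i).continuousAt).congr h2.symm
      · have h2 : (fun w => (toJoin φ w).τ i g) =ᶠ[𝓝 u] fun w => 0 := by
          filter_upwards [h1] with w hw
          exact toJoin_τ_ne φ w i (by rw [hw]; exact h)
        exact continuousAt_const.congr h2.symm

theorem toJoin_add (hφ : ∀ a b, φ (a + b) = φ a * φ b) (u : Fin k → ℝ) (a : Fin k → ℤ) :
    toJoin φ (u + fun j => (a j : ℝ)) = φ a • toJoin φ u := by
  classical
  ext i g
  rw [Join.smul_τ]
  have h1 : ∑ i, bw i (u + fun j => (a j : ℝ)) = ∑ i, bw i u :=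
    Finset.sum_congr rfl fun i _ => bw_add i u a
  by_cases h : g = φ a * φ (lab i u)
  · have h2 : (toJoin φ (u + fun j => (a j : ℝ))).τ i g = bw i u / ∑ i, bw i u := by
      have h3 : g = φ (lab i (u + fun j => (a j : ℝ))) := by rw [lab_add, hφ, h]
      rw [h3, toJoin_τ, bw_add, h1]
    rw [h2, h, inv_mul_cancel_left, toJoin_τ]
  · rw [toJoin_τ_ne, toJoin_τ_ne]
    · intro h2
      apply h
      rw [← h2, mul_inv_cancel_left]
    · rw [lab_add, hφ]
      exact h

end map

section family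

theorem TCLe.family {X : Type} [TopologicalSpace X] {m : ℕ} (h : TCLe X m) (N : ℕ)
    (hN : m + 1 ≤ N) :
    ∃ U : Fin N → Set (X × X), (∀ i, IsOpen (U i)) ∧ (∀ p, ∃ i, p ∈ U i) ∧
    ∀ i, HasPlanner (U i) := by
  classical
  obtain ⟨U, h1, h2, h3⟩ := h
  refine ⟨fun i => if h : (i : ℕ) < m + 1 then U ⟨i, h⟩ else ∅, ?_, ?_, ?_⟩
  · intro i
    dsimp only
    split_ifs
    · exact h1 _
    · exact isOpen_empty
  · intro p
    obtain ⟨i, hi⟩ := h2 p
    refine ⟨⟨i, by omega⟩, ?_⟩
    simp only [i.2, dite_true]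
    exact hi
  · intro i
    dsimp only
    split_ifs
    · exact h3 _
    · have : IsEmpty (∅ : Set (X × X)) := inferInstance
      exact ⟨⟨fun p => (this.false p).elim, continuous_of_const (fun p => (this.false p).elim)⟩,
        fun p => (this.false p).elim⟩

end family

/-- freeness in the lifted situation: locally constant group elements -/
theorem eventually_eq_of_smul {k : ℕ} {G : Type} [Group G] {Y : Type} [TopologicalSpace Y]
    {L M : Y → Join k G} (hL : Continuous L) (hM : Continuous M) {γ : Y → G}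
    (h : ∀ y, L y = γ y • M y) (y0 : Y) : ∀ᶠ y in 𝓝 y0, γ y = γ y0 := by
  obtain ⟨U, hU, hdisj⟩ := (isQC k G).disjoint (L y0)
  have h1 : ∀ᶠ y in 𝓝 y0, L y ∈ U := hL.continuousAt.eventually hU
  have hcont : Continuous fun y => γ y0 • M y := hM.const_smul (γ y0)
  have h2 : ∀ᶠ y in 𝓝 y0, γ y0 • M y ∈ U := by
    apply hcont.continuousAt.eventually
    dsimp only
    rw [← h y0]
    exact hU
  filter_upwards [h1, h2] with y hy1 hy2
  have h3 : γ y * (γ y0)⁻¹ = 1 := by
    apply hdisj
    refine ⟨L y, ⟨γ y0 • M y, hy2, ?_⟩, hy1⟩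
    dsimp only
    rw [h y, smul_smul, inv_mul_cancel_right]
  exact mul_inv_eq_one.1 h3

/-- The lower bound. -/
theorem lower_bound {k : ℕ} {G : Type} [CommGroup G] (φA φB : (Fin k → ℤ) → G)
    (hA : ∀ a b, φA (a + b) = φA a * φA b) (hB : ∀ a b, φB (a + b) = φB a * φB b)
    (χ : Fin (k + k) → G → ℤ) (hχ : ∀ i g h, χ i (g * h) = χ i g + χ i h)
    (hl : ∀ (i : Fin (k + k)) (l : Fin (k + k) → ℤ),
      χ i (φA fun j => l (Fin.castAdd k j)) - χ i (φB fun j => l (Fin.natAdd k j)) = l i)
    {m : ℕ} (hm : TCLe (BG k G) m) : k + k ≤ m := by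
  classical
  by_contra hcon
  push Not at hcon
  obtain ⟨U, hUo, hUc, hUs⟩ := hm.family (k + k) (by omega)
  have cov := (isQC k G).isCoveringMap
  set uA : (Fin (k + k) → ℝ) → (Fin k → ℝ) := fun z j => z (Fin.castAdd k j) with huA
  set uB : (Fin (k + k) → ℝ) → (Fin k → ℝ) := fun z j => z (Fin.natAdd k j) with huB
  have huAc : Continuous uA := by rw [huA]; fun_prop
  have huBc : Continuous uB := by rw [huB]; fun_prop
  set fA : (Fin (k + k) → ℝ) → Join k G := fun z => toJoin φA (uA z) with hfA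
  set fB : (Fin (k + k) → ℝ) → Join k G := fun z => toJoin φB (uB z) with hfB
  have hfAc : Continuous fA := (toJoin_continuous φA).comp huAc
  have hfBc : Continuous fB := (toJoin_continuous φB).comp huBc
  have hpc : Continuous (proj k G) := (isQC k G).continuous
  set F : (Fin (k + k) → ℝ) → BG k G × BG k G := fun z => (proj k G (fA z), proj k G (fB z)) with hF
  have hFc : Continuous F := (hpc.comp hfAc).prodMk (hpc.comp hfBc)
  have hfA_add : ∀ z (l : Fin (k + k) → ℤ), fA (z + fun j => (l j : ℝ)) =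
      φA (fun j => l (Fin.castAdd k j)) • fA z := by
    intro z l
    rw [hfA]
    exact toJoin_add φA hA (uA z) (fun j => l (Fin.castAdd k j))
  have hfB_add : ∀ z (l : Fin (k + k) → ℤ), fB (z + fun j => (l j : ℝ)) =
      φB (fun j => l (Fin.natAdd k j)) • fB z := by
    intro z l
    rw [hfB]
    exact toJoin_add φB hB (uB z) (fun j => l (Fin.natAdd k j))
  have hFadd : ∀ z (l : Fin (k + k) → ℤ), F (z + fun j => (l j : ℝ)) = F z := by
    intro z l
    simp only [hF]
    rw [hfA_add, hfB_add, (isQC k G).map_smul, (isQC k G).map_smul]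
  set V : Fin (k + k) → Set (Fin (k + k) → ℝ) := fun i => F ⁻¹' (U i) with hV
  have hVadd : ∀ i, ∀ z ∈ V i, ∀ l : Fin (k + k) → ℤ, (z + fun j => (l j : ℝ)) ∈ V i := by
    intro i z hz l
    change F _ ∈ U i
    rw [hFadd]
    exact hz
  -- for every `i` the group element
  have key : ∀ i, ∃ γ : V i → G, (∀ z0 : V i, ∀ᶠ z in 𝓝 z0, γ z = γ z0) ∧
      ∀ (z : V i) (l : Fin (k + k) → ℤ),
        γ ⟨z.1 + fun j => (l j : ℝ), hVadd i z.1 z.2 l⟩ * φB (fun j => l (Fin.natAdd k j)) =
        φA (fun j => l (Fin.castAdd k j)) * γ z := by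
    intro i
    obtain ⟨s, hs⟩ := hUs i
    set r : C(V i, U i) := ⟨fun z => ⟨F z.1, z.2⟩, by fun_prop⟩ with hr
    set H0 : C(V i × I, BG k G) := ContinuousMap.uncurry (s.comp r) with hH0
    set H : C(I × V i, BG k G) := H0.comp ⟨Prod.swap, continuous_swap⟩ with hH
    set f0 : C(V i, Join k G) := ⟨fun z => fA z.1, hfAc.comp continuous_subtype_val⟩ with hf0
    have hH0' : ∀ z, H (0, z) = proj k G (f0 z) := by
      intro z
      exact (hs (r z)).1
    set L := cov.liftHomotopy H f0 hH0' with hL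
    have hLlift : ∀ x, proj k G (L x) = H x := fun x =>
      congrFun (cov.liftHomotopy_lifts H f0 hH0') x
    have hL0 : ∀ z, L (0, z) = f0 z := cov.liftHomotopy_zero H f0 hH0'
    have hend : ∀ z : V i, ∃ g : G, L (1, z) = g • fB z.1 := by
      intro z
      have h1 : proj k G (L (1, z)) = proj k G (fB z.1) := by
        rw [hLlift]
        exact (hs (r z)).2
      obtain ⟨g, hg⟩ := proj_eq_iff.1 h1
      exact ⟨g, hg.symm⟩
    choose γ hγ using hend
    refine ⟨γ, ?_, ?_⟩
    · intro z0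
      exact eventually_eq_of_smul (L := fun z : V i => L (1, z)) (M := fun z : V i => fB z.1)
        (by fun_prop) (hfBc.comp continuous_subtype_val) hγ z0
    · intro z l
      set z' : V i := ⟨z.1 + fun j => (l j : ℝ), hVadd i z.1 z.2 l⟩ with hz'
      set a := φA (fun j => l (Fin.castAdd k j)) with ha
      set b := φB (fun j => l (Fin.natAdd k j)) with hb
      have hrz : r z' = r z := Subtype.ext (hFadd z.1 l)
      have hpath : (fun t : I => L (t, z')) = fun t : I => a • L (t, z) := by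
        apply cov.eq_of_comp_eq (by fun_prop) _ _ (0 : I)
        · rw [hL0, hL0]
          exact hfA_add z.1 l
        · have : Continuous fun t : I => L (t, z) := by fun_prop
          exact this.const_smul a
        · funext t
          simp only [Function.comp]
          rw [(isQC k G).map_smul, hLlift, hLlift]
          change s (r z') t = s (r z) t
          rw [hrz]
      have h1 := congrFun hpath 1
      rw [hγ z', hγ z] at h1
      have h2 : fB z'.1 = b • fB z.1 := hfB_add z.1 l
      rw [h2, smul_smul, smul_smul] at h1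
      exact smul_free h1
  choose γ hγ1 hγ2 using key
  refine core (N := k + k) V (fun i z => if h : z ∈ V i then χ i (γ i ⟨z, h⟩) else 0) ?_ ?_ ?_ ?_
  · intro i
    exact (hUo i).preimage hFc
  · intro z
    exact hUc (F z)
  · intro i z hz
    have hopen : IsOpen (V i) := (hUo i).preimage hFc
    have h1 := hγ1 i ⟨z, hz⟩
    rw [nhds_subtype_eq_comap, eventually_comap] at h1
    filter_upwards [h1, hopen.mem_nhds hz] with w hw1 hw2
    rw [dif_pos hw2, dif_pos hz, hw1 ⟨w, hw2⟩ rfl]
  · intro i z hz l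
    refine ⟨hVadd i z hz l, ?_⟩
    rw [dif_pos (hVadd i z hz l), dif_pos hz]
    have h1 := congrArg (χ i) (hγ2 i ⟨z, hz⟩ l)
    rw [hχ, hχ] at h1
    have h2 := hl i l
    simp only at h1
    linarith

end Pool.Agent.Helper94.TC
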