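import Pool.Agent.Helper94.TC.Upper
import Pool.Agent.Helper94.TC.Lower
import Pool.Agent.Helper94.TC.CD

/-!
# The group `ℤ^∞ × ℤ/2`
-/

set_option autoImplicit false

namespace Pool.Agent.Helper94.TC

/-- the group `ℤ^∞ × ℤ/2` -/
abbrev G0 : Type := Multiplicative ((ℕ →₀ ℤ) × ZMod 2)

theorem G0_infiniteCD : InfiniteCD G0 := by
  intro N
  refine ⟨2 * (N + 1), by omega, Rep.trivial ℤ G0 ℤ, ?_⟩
  refine retract_nontrivial
    (AddMonoidHom.toMultiplicative (AddMonoidHom.inr (ℕ →₀ ℤ) (ZMod 2)))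
    (AddMonoidHom.toMultiplicative (AddMonoidHom.snd (ℕ →₀ ℤ) (ZMod 2))) ?_ _
    (C2_nontrivial _ ⟨N + 1, by ring⟩ (by omega))
  ext x
  rfl

/-- embedding of `ℤ^N` -/
noncomputable def emb {N : ℕ} (l : Fin N → ℤ) : ℕ →₀ ℤ :=
  Finsupp.mapDomain Fin.val (Finsupp.equivFunOnFinite.symm l)

theorem emb_add {N : ℕ} (l l' : Fin N → ℤ) : emb (l + l') = emb l + emb l' := by
  unfold emb
  rw [← Finsupp.mapDomain_add]
  congr 1
  ext i
  rfl

theorem emb_apply {N : ℕ} (l : Fin N → ℤ) (i : Fin N) : emb l i = l i := by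
  unfold emb
  rw [Finsupp.mapDomain_apply Fin.val_injective]
  rfl

theorem G0_lower {k m : ℕ} (hm : TCLe (BG k G0) m) : k + k ≤ m := by
  have happ : ∀ (a b a' b' : Fin k → ℤ),
      (Fin.append (a + a') (b + b') : Fin (k + k) → ℤ) = Fin.append a b + Fin.append a' b' := by
    intro a b a' b'
    funext i
    refine Fin.addCases (fun j => ?_) (fun j => ?_) i
    · simp only [Fin.append_left, Pi.add_apply]
    · simp only [Fin.append_right, Pi.add_apply]
  refine lower_bound (G := G0)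
    (fun a => Multiplicative.ofAdd (emb (Fin.append a 0 : Fin (k + k) → ℤ), 0))
    (fun b => Multiplicative.ofAdd (-emb (Fin.append 0 b : Fin (k + k) → ℤ), 0)) ?_ ?_
    (fun i g => (Multiplicative.toAdd g).1 i) ?_ ?_ hm
  · intro a b
    rw [← ofAdd_add]
    congr 1
    have := happ a 0 b 0
    rw [add_zero] at this
    rw [this, emb_add]
    simp
  · intro a b
    rw [← ofAdd_add]
    congr 1
    have := happ 0 a 0 b
    rw [add_zero] at this
    rw [this, emb_add]
    simp [add_comm]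
  · intro i g h
    simp
  · intro i l
    simp only [toAdd_ofAdd, Finsupp.coe_neg, Pi.neg_apply]
    rw [emb_apply, emb_apply]
    refine Fin.addCases (fun j => ?_) (fun j => ?_) i
    · simp only [Fin.append_left, Pi.zero_apply, neg_zero, sub_zero]
    · simp only [Fin.append_right, Pi.zero_apply, zero_sub, neg_neg]

theorem G0_topCpx (k : ℕ) : topCpx (BG k G0) = 2 * k := by
  apply le_antisymm
  · unfold topCpx
    refine iInf₂_le_of_le (2 * k) (upper_bound k G0) ?_
    push_cast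
    exact le_rfl
  · unfold topCpx
    refine le_iInf₂ fun m hm => ?_
    have := G0_lower hm
    have h2 : 2 * k ≤ m := by omega
    exact_mod_cast h2

theorem G0_set (n : ℕ) : {k : ℕ | 1 ≤ k ∧ topCpx (BG k G0) ≤ n} = Set.Icc 1 (n / 2) := by
  ext k
  simp only [G0_topCpx]
  have h1 : ((2 : ℕ∞) * k ≤ n) ↔ 2 * k ≤ n := by
    constructor
    · intro h; exact_mod_cast h
    · intro h; exact_mod_cast h
  constructor
  · rintro ⟨h2, h3⟩
    rw [h1] at h3
    exact ⟨h2, by omega⟩
  · rintro ⟨h2, h3⟩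
    exact ⟨h2, h1.2 (by omega)⟩

theorem G0_growth (n : ℕ) : growth G0 n = n / 2 := by
  unfold growth
  rw [G0_set, Set.ncard_eq_toFinset_card']
  simp

end Pool.Agent.Helper94.TC
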