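import Pool.Agent.Helper94.TC.Defs

/-!
# Topological complexity, Milnor's joins and their orbit spaces: definitions and basic facts
-/

set_option autoImplicit false

open Filter Topology unitInterval

namespace Pool.Agent.Helper94.TC

namespace Join

variable {n : ℕ} {G : Type}

theorem t_eq_of_ne {x : Join n G} {i : Fin (n + 1)} {a : G} (h : x.τ i a ≠ 0) :
    x.t i = x.τ i a := by
  unfold t
  refine finsum_eq_single _ a fun b hb => ?_
  by_contra h2
  exact hb (x.unique i b a h2 h)

theorem exists_label {x : Join n G} {i : Fin (n + 1)} (h : x.t i ≠ 0) : ∃ a, x.τ i a ≠ 0 := by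
  by_contra hcon
  push Not at hcon
  apply h
  unfold t
  simp [hcon]

theorem t_nonneg (x : Join n G) (i : Fin (n + 1)) : 0 ≤ x.t i :=
  finsum_nonneg fun a => x.nonneg i a

theorem sum_t (x : Join n G) : ∑ i, x.t i = 1 := x.sum_eq

theorem exists_t_ne (x : Join n G) : ∃ i, x.t i ≠ 0 := by
  by_contra hcon
  push Not at hcon
  have := x.sum_t
  simp [hcon] at this

theorem continuous_iff {Y : Type*} [TopologicalSpace Y] {f : Y → Join n G} :
    Continuous f ↔ (∀ i, Continuous fun y => (f y).t i) ∧
      ∀ i a, Continuous fun y => (f y).τ i a := by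
  rw [continuous_induced_rng]
  constructor
  · intro h
    refine ⟨fun i => ?_, fun i a => ?_⟩
    · exact (continuous_apply i).comp (continuous_fst.comp h)
    · exact (continuous_apply a).comp ((continuous_apply i).comp (continuous_snd.comp h))
  · rintro ⟨h1, h2⟩
    exact Continuous.prodMk (continuous_pi h1) (continuous_pi fun i => continuous_pi fun a => h2 i a)

theorem continuous_t (i : Fin (n + 1)) : Continuous fun x : Join n G => x.t i :=
  (continuous_iff.1 continuous_id).1 i

theorem continuous_τ (i : Fin (n + 1)) (a : G) : Continuous fun x : Join n G => x.τ i a :=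
  (continuous_iff.1 continuous_id).2 i a

variable [Group G]

theorem smul_τ (g : G) (x : Join n G) (i : Fin (n + 1)) (a : G) :
    (g • x).τ i a = x.τ i (g⁻¹ * a) := rfl

theorem smul_t (g : G) (x : Join n G) (i : Fin (n + 1)) : (g • x).t i = x.t i :=
  finsum_comp_equiv (Equiv.mulLeft g⁻¹) (f := fun a => x.τ i a)

instance : ContinuousConstSMul G (Join n G) where
  continuous_const_smul g := by
    rw [continuous_iff]
    refine ⟨fun i => ?_, fun i a => ?_⟩
    · simp_rw [smul_t]
      exact continuous_t i
    · simp_rw [smul_τ]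
      exact continuous_τ i _

end Join

/-- the projection -/
def proj (n : ℕ) (G : Type) [Group G] : Join n G → BG n G := Quotient.mk _

theorem proj_eq_iff {n : ℕ} {G : Type} [Group G] {x y : Join n G} :
    proj n G x = proj n G y ↔ x ∈ MulAction.orbit G y := Quotient.eq''

/-- The projection is a covering. -/
theorem isQC (n : ℕ) (G : Type) [Group G] : IsQuotientCoveringMap (proj n G) G where
  toIsQuotientMap := isQuotientMap_quotient_mk'
  continuous_const_smul := fun g => continuous_const_smul g
  apply_eq_iff_mem_orbit := proj_eq_iff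
  disjoint e := by
    obtain ⟨i, hi⟩ := e.exists_t_ne
    obtain ⟨a, ha⟩ := Join.exists_label hi
    refine ⟨{x | x.τ i a ≠ 0}, ?_, ?_⟩
    · exact (isOpen_ne_fun (Join.continuous_τ i a) continuous_const).mem_nhds ha
    · rintro g ⟨y, ⟨x, hx, rfl⟩, hy⟩
      simp only [Set.mem_ofPred_eq] at hx hy
      rw [Join.smul_τ] at hy
      have := x.unique i _ _ hy hx
      have h2 : g⁻¹ * a = 1 * a := by rw [this, one_mul]
      have h3 := mul_right_cancel h2
      rwa [inv_eq_one] at h3

theorem smul_free {n : ℕ} {G : Type} [Group G] {g h : G} {x : Join n G} (hx : g • x = h • x) :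
    g = h := by
  have := (isQC n G).isCancelSMul
  exact IsCancelSMul.right_cancel _ _ _ hx

end Pool.Agent.Helper94.TC
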