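import Pool.Agent.Helper94.TC.Join

/-!
# The upper bound for the topological complexity of `B_kG`
-/

set_option autoImplicit false
set_option linter.unusedSectionVars false

open Filter Topology unitInterval

namespace Pool.Agent.Helper94.TC

section planner

variable {X : Type} [TopologicalSpace X]

theorem HasPlanner.mono {W W' : Set (X × X)} (h : HasPlanner W) (hW : W' ⊆ W) :
    HasPlanner W' := by
  obtain ⟨s, hs⟩ := h
  exact ⟨s.comp ⟨Set.inclusion hW, continuous_inclusion hW⟩, fun p => hs _⟩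

/-- planners can be glued over disjoint unions of open sets -/
theorem HasPlanner.glue {ι : Type} (O : ι → Set (X × X)) (hO : ∀ a, IsOpen (O a))
    (hdisj : ∀ a b p, p ∈ O a → p ∈ O b → a = b) (h : ∀ a, HasPlanner (O a)) :
    HasPlanner {p | ∃ a, p ∈ O a} := by
  choose s hs using h
  set W : Set (X × X) := {p | ∃ a, p ∈ O a} with hW
  set S : ι → Set W := fun a => {p | p.1 ∈ O a} with hS
  set φ : ∀ a, C(S a, C(I, X)) := fun a =>
    (s a).comp ⟨fun p => ⟨p.1.1, p.2⟩, by fun_prop⟩ with hφ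
  have hcompat : ∀ (a b : ι) (p : W) (ha : p ∈ S a) (hb : p ∈ S b),
      φ a ⟨p, ha⟩ = φ b ⟨p, hb⟩ := by
    intro a b p ha hb
    have := hdisj a b p.1 ha hb
    subst this
    rfl
  have hnhds : ∀ p : W, ∃ a, S a ∈ 𝓝 p := by
    rintro ⟨p, a, ha⟩
    refine ⟨a, ?_⟩
    have : IsOpen (S a) := (hO a).preimage continuous_subtype_val
    exact this.mem_nhds ha
  refine ⟨ContinuousMap.liftCover S φ hcompat hnhds, ?_⟩
  rintro ⟨p, a, ha⟩
  have h1 : ContinuousMap.liftCover S φ hcompat hnhds ⟨p, a, ha⟩ = φ a ⟨⟨p, a, ha⟩, ha⟩ :=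
    ContinuousMap.liftCover_coe (S := S) (x := (⟨⟨p, a, ha⟩, ha⟩ : S a))
  rw [h1]
  exact hs a ⟨p, ha⟩

end planner

variable {k : ℕ} {G : Type} [Group G]

/-- barycentric coordinates on the orbit space -/
noncomputable def tB (i : Fin (k + 1)) : BG k G → ℝ :=
  Quotient.lift (fun x : Join k G => x.t i) (by
    rintro x y ⟨g, rfl⟩
    exact Join.smul_t g y i)

theorem tB_proj (i : Fin (k + 1)) (x : Join k G) : tB i (proj k G x) = x.t i := rfl

theorem tB_continuous (i : Fin (k + 1)) : Continuous (tB (G := G) i) :=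
  Continuous.quotient_lift (Join.continuous_t i) _

theorem proj_surj (b : BG k G) : ∃ x, proj k G x = b := (isQC k G).surjective b

theorem tB_nonneg (i : Fin (k + 1)) (b : BG k G) : 0 ≤ tB i b := by
  obtain ⟨x, rfl⟩ := proj_surj b
  exact x.t_nonneg i

theorem exists_tB_ne (b : BG k G) : ∃ i, tB i b ≠ 0 := by
  obtain ⟨x, rfl⟩ := proj_surj b
  exact x.exists_t_ne

/-- existence of the normalised lift -/
theorem exists_norm (i : Fin (k + 1)) (b : BG k G) (hb : tB i b ≠ 0) :
    ∃ y : Join k G, proj k G y = b ∧ y.τ i 1 ≠ 0 := by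
  obtain ⟨x, rfl⟩ := proj_surj b
  obtain ⟨a, ha⟩ := Join.exists_label (x := x) (i := i) hb
  refine ⟨a⁻¹ • x, (isQC k G).map_smul _, ?_⟩
  rw [Join.smul_τ]
  simpa using ha

theorem norm_unique (i : Fin (k + 1)) {y y' : Join k G} (h : proj k G y = proj k G y')
    (hy : y.τ i 1 ≠ 0) (hy' : y'.τ i 1 ≠ 0) : y = y' := by
  obtain ⟨g, hg⟩ := proj_eq_iff.1 h
  simp only at hg
  rw [← hg, Join.smul_τ, mul_one] at hy
  have h1 := y'.unique i _ _ hy hy'
  rw [inv_eq_one] at h1
  rw [← hg, h1, one_smul]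

open Classical in
/-- the normalised lift -/
noncomputable def rho (i : Fin (k + 1)) (b : BG k G) : Join k G :=
  if hb : tB i b ≠ 0 then (exists_norm i b hb).choose else (proj_surj b).choose

theorem rho_proj (i : Fin (k + 1)) (b : BG k G) : proj k G (rho i b) = b := by
  unfold rho
  split_ifs with hb
  · exact (exists_norm i b hb).choose_spec.1
  · exact (proj_surj b).choose_spec

theorem rho_τ (i : Fin (k + 1)) (b : BG k G) (hb : tB i b ≠ 0) : (rho i b).τ i 1 ≠ 0 := by
  unfold rho
  rw [dif_pos hb]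
  exact (exists_norm i b hb).choose_spec.2

theorem rho_continuousAt (i : Fin (k + 1)) (b : BG k G) (hb : tB i b ≠ 0) :
    ContinuousAt (rho i) b := by
  intro O hO
  rw [mem_map]
  have hW : {y : Join k G | y.τ i 1 ≠ 0} ∈ 𝓝 (rho i b) :=
    (isOpen_ne_fun (Join.continuous_τ i 1) continuous_const).mem_nhds (rho_τ i b hb)
  have h1 : proj k G '' (O ∩ {y : Join k G | y.τ i 1 ≠ 0}) ∈ 𝓝 b := by
    have h2 := (isQC k G).isOpenQuotientMap.isOpenMap.image_mem_nhds (inter_mem hO hW)
    rwa [rho_proj] at h2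
  filter_upwards [h1] with b' hb'
  obtain ⟨y, ⟨hyO, hy1⟩, rfl⟩ := hb'
  have h3 : rho i (proj k G y) = y := by
    apply norm_unique i (rho_proj i _) _ hy1
    apply rho_τ
    rw [tB_proj, Join.t_eq_of_ne hy1]
    exact hy1
  change rho i (proj k G y) ∈ O
  rw [h3]
  exact hyO

/-- coefficient functions of the three-segment path -/
noncomputable def ca (t : ℝ) : ℝ := max 0 (1 - 3 * t)
noncomputable def cb (t : ℝ) : ℝ := max 0 (min (3 * t) (2 - 3 * t))
noncomputable def cc (t : ℝ) : ℝ := max 0 (min (3 * t - 1) (3 - 3 * t))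
noncomputable def cd (t : ℝ) : ℝ := max 0 (3 * t - 2)

theorem coef_cases {t : ℝ} (h0 : 0 ≤ t) (h1 : t ≤ 1) :
    (ca t + cb t = 1 ∧ cc t = 0 ∧ cd t = 0) ∨ (ca t = 0 ∧ cb t + cc t = 1 ∧ cd t = 0) ∨
      (ca t = 0 ∧ cb t = 0 ∧ cc t + cd t = 1) := by
  unfold ca cb cc cd
  rcases le_total t (1 / 3) with h | h
  · left
    rw [max_eq_right (by linarith), min_eq_left (by linarith), max_eq_right (by linarith),
      max_eq_left (by rw [min_le_iff]; left; linarith), max_eq_left (by linarith)]
    refine ⟨by ring, rfl, rfl⟩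
  · rcases le_total t (2 / 3) with h' | h'
    · right; left
      rw [max_eq_left (by linarith), min_eq_right (by linarith), max_eq_right (by linarith),
        min_eq_left (by linarith), max_eq_right (by linarith), max_eq_left (by linarith)]
      refine ⟨rfl, by ring, rfl⟩
    · right; right
      rw [max_eq_left (by linarith), max_eq_left (by rw [min_le_iff]; right; linarith),
        min_eq_right (by linarith), max_eq_right (by linarith), max_eq_right (by linarith)]
      refine ⟨rfl, rfl, by ring⟩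

theorem coef_nonneg (t : ℝ) : 0 ≤ ca t ∧ 0 ≤ cb t ∧ 0 ≤ cc t ∧ 0 ≤ cd t :=
  ⟨le_max_left _ _, le_max_left _ _, le_max_left _ _, le_max_left _ _⟩

open Classical in
/-- the vertex with label `1` -/
noncomputable def vert (i : Fin (k + 1)) : Join k G where
  τ l a := if l = i ∧ a = 1 then 1 else 0
  nonneg l a := by split_ifs <;> norm_num
  unique l a b ha hb := by
    have h1 : l = i ∧ a = 1 := by by_contra h; exact ha (if_neg h)
    have h2 : l = i ∧ b = 1 := by by_contra h; exact hb (if_neg h)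
    rw [h1.2, h2.2]
  sum_eq := by
    have h1 : ∀ l : Fin (k + 1), ∑ᶠ a : G, (if l = i ∧ a = 1 then (1 : ℝ) else 0) =
        if l = i then 1 else 0 := by
      intro l
      rw [finsum_eq_single _ (1 : G) (fun b hb => if_neg (fun h => hb h.2))]
      simp
    simp_rw [h1]
    simp

theorem vert_τ (i l : Fin (k + 1)) (a : G) (h : (vert (G := G) i).τ l a ≠ 0) :
    l = i ∧ a = 1 := by
  classical
  by_contra hcon
  exact h (if_neg hcon)

theorem supp_finite (x : Join k G) (l : Fin (k + 1)) :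
    (Function.support fun a => x.τ l a).Finite := by
  apply Set.Subsingleton.finite
  intro a ha b hb
  exact x.unique l a b ha hb

theorem comb_t (x p q y : Join k G) (l : Fin (k + 1)) (c1 c2 c3 c4 : ℝ) :
    ∑ᶠ a, (c1 * x.τ l a + c2 * p.τ l a + c3 * q.τ l a + c4 * y.τ l a) =
      c1 * x.t l + c2 * p.t l + c3 * q.t l + c4 * y.t l := by
  classical
  set S : Finset G := (supp_finite x l).toFinset ∪ (supp_finite p l).toFinset ∪
    (supp_finite q l).toFinset ∪ (supp_finite y l).toFinset with hS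
  have hmem : ∀ a, a ∈ S ↔ (x.τ l a ≠ 0 ∨ p.τ l a ≠ 0 ∨ q.τ l a ≠ 0 ∨ y.τ l a ≠ 0) := by
    intro a
    simp only [hS, Finset.mem_union, Set.Finite.mem_toFinset, Function.mem_support]
    tauto
  have h1 : ∀ z : Join k G, (∀ a, z.τ l a ≠ 0 → a ∈ S) → z.t l = ∑ a ∈ S, z.τ l a := by
    intro z hz
    apply finsum_eq_sum_of_support_subset
    intro a ha
    exact hz a ha
  have h2 : ∑ᶠ a, (c1 * x.τ l a + c2 * p.τ l a + c3 * q.τ l a + c4 * y.τ l a) =
      ∑ a ∈ S, (c1 * x.τ l a + c2 * p.τ l a + c3 * q.τ l a + c4 * y.τ l a) := by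
    apply finsum_eq_sum_of_support_subset
    intro a ha
    rw [Function.mem_support] at ha
    change a ∈ S
    rw [hmem]
    by_contra hcon
    push Not at hcon
    rw [hcon.1, hcon.2.1, hcon.2.2.1, hcon.2.2.2] at ha
    simp at ha
  rw [h2, h1 x (fun a ha => (hmem a).2 (Or.inl ha)),
    h1 p (fun a ha => (hmem a).2 (Or.inr (Or.inl ha))),
    h1 q (fun a ha => (hmem a).2 (Or.inr (Or.inr (Or.inl ha)))),
    h1 y (fun a ha => (hmem a).2 (Or.inr (Or.inr (Or.inr ha)))),
    Finset.sum_add_distrib, Finset.sum_add_distrib, Finset.sum_add_distrib, ← Finset.mul_sum,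
    ← Finset.mul_sum, ← Finset.mul_sum, ← Finset.mul_sum]

/-- compatibility of two points: they lie in a common simplex -/
def Compat (x y : Join k G) : Prop := ∀ l a b, x.τ l a ≠ 0 → y.τ l b ≠ 0 → a = b

theorem Compat.symm {x y : Join k G} (h : Compat x y) : Compat y x :=
  fun l a b ha hb => (h l b a hb ha).symm

/-- the points of the three-segment path -/
noncomputable def seg (x p q y : Join k G) (h1 : Compat x p) (h2 : Compat p q) (h3 : Compat q y)
    (t : I) : Join k G where
  τ l a := ca t * x.τ l a + cb t * p.τ l a + cc t * q.τ l a + cd t * y.τ l a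
  nonneg l a := by
    obtain ⟨ha, hb, hc, hd⟩ := coef_nonneg (t : ℝ)
    have := x.nonneg l a
    have := p.nonneg l a
    have := q.nonneg l a
    have := y.nonneg l a
    positivity
  unique l a b ha hb := by
    rcases coef_cases t.2.1 t.2.2 with ⟨-, hc, hd⟩ | ⟨hc, -, hd⟩ | ⟨hc, hd, -⟩
    · rw [hc, hd] at ha hb
      simp only [zero_mul, add_zero] at ha hb
      have ha' : x.τ l a ≠ 0 ∨ p.τ l a ≠ 0 := by
        by_contra hcon; push Not at hcon; rw [hcon.1, hcon.2] at ha; simp at ha
      have hb' : x.τ l b ≠ 0 ∨ p.τ l b ≠ 0 := by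
        by_contra hcon; push Not at hcon; rw [hcon.1, hcon.2] at hb; simp at hb
      rcases ha' with ha' | ha' <;> rcases hb' with hb' | hb'
      · exact x.unique l a b ha' hb'
      · exact h1 l a b ha' hb'
      · exact h1.symm l a b ha' hb'
      · exact p.unique l a b ha' hb'
    · rw [hc, hd] at ha hb
      simp only [zero_mul, add_zero, zero_add] at ha hb
      have ha' : p.τ l a ≠ 0 ∨ q.τ l a ≠ 0 := by
        by_contra hcon; push Not at hcon; rw [hcon.1, hcon.2] at ha; simp at ha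
      have hb' : p.τ l b ≠ 0 ∨ q.τ l b ≠ 0 := by
        by_contra hcon; push Not at hcon; rw [hcon.1, hcon.2] at hb; simp at hb
      rcases ha' with ha' | ha' <;> rcases hb' with hb' | hb'
      · exact p.unique l a b ha' hb'
      · exact h2 l a b ha' hb'
      · exact h2.symm l a b ha' hb'
      · exact q.unique l a b ha' hb'
    · rw [hc, hd] at ha hb
      simp only [zero_mul, zero_add] at ha hb
      have ha' : q.τ l a ≠ 0 ∨ y.τ l a ≠ 0 := by
        by_contra hcon; push Not at hcon; rw [hcon.1, hcon.2] at ha; simp at ha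
      have hb' : q.τ l b ≠ 0 ∨ y.τ l b ≠ 0 := by
        by_contra hcon; push Not at hcon; rw [hcon.1, hcon.2] at hb; simp at hb
      rcases ha' with ha' | ha' <;> rcases hb' with hb' | hb'
      · exact q.unique l a b ha' hb'
      · exact h3 l a b ha' hb'
      · exact h3.symm l a b ha' hb'
      · exact y.unique l a b ha' hb'
  sum_eq := by
    have h : ∀ l : Fin (k + 1), ∑ᶠ a, (ca t * x.τ l a + cb t * p.τ l a + cc t * q.τ l a +
        cd t * y.τ l a) = ca t * x.t l + cb t * p.t l + cc t * q.t l + cd t * y.t l :=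
      fun l => comb_t x p q y l _ _ _ _
    simp_rw [h]
    rw [Finset.sum_add_distrib, Finset.sum_add_distrib, Finset.sum_add_distrib, ← Finset.mul_sum,
      ← Finset.mul_sum, ← Finset.mul_sum, ← Finset.mul_sum, x.sum_t, p.sum_t, q.sum_t, y.sum_t]
    rcases coef_cases t.2.1 t.2.2 with ⟨hs, hc, hd⟩ | ⟨hc, hs, hd⟩ | ⟨hc, hd, hs⟩
    · rw [hc, hd]; linarith
    · rw [hc, hd]; linarith
    · rw [hc, hd]; linarith

theorem seg_t (x p q y : Join k G) (h1 : Compat x p) (h2 : Compat p q) (h3 : Compat q y)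
    (t : I) (l : Fin (k + 1)) : (seg x p q y h1 h2 h3 t).t l =
      ca t * x.t l + cb t * p.t l + cc t * q.t l + cd t * y.t l :=
  comb_t x p q y l _ _ _ _

theorem seg_zero (x p q y : Join k G) (h1 : Compat x p) (h2 : Compat p q) (h3 : Compat q y) :
    seg x p q y h1 h2 h3 0 = x := by
  ext l a
  have ha : ca ((0 : I) : ℝ) = 1 := by simp [ca]
  have hb : cb ((0 : I) : ℝ) = 0 := by simp [cb]
  have hc : cc ((0 : I) : ℝ) = 0 := by simp [cc]
  have hd : cd ((0 : I) : ℝ) = 0 := by simp [cd]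
  change ca ((0 : I) : ℝ) * x.τ l a + cb ((0 : I) : ℝ) * p.τ l a + cc ((0 : I) : ℝ) * q.τ l a +
    cd ((0 : I) : ℝ) * y.τ l a = x.τ l a
  rw [ha, hb, hc, hd]; ring

theorem seg_one (x p q y : Join k G) (h1 : Compat x p) (h2 : Compat p q) (h3 : Compat q y) :
    seg x p q y h1 h2 h3 1 = y := by
  ext l a
  have ha : ca ((1 : I) : ℝ) = 0 := by simp [ca]
  have hb : cb ((1 : I) : ℝ) = 0 := by simp [cb]; norm_num
  have hc : cc ((1 : I) : ℝ) = 0 := by simp [cc]
  have hd : cd ((1 : I) : ℝ) = 1 := by simp [cd]; norm_num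
  change ca ((1 : I) : ℝ) * x.τ l a + cb ((1 : I) : ℝ) * p.τ l a + cc ((1 : I) : ℝ) * q.τ l a +
    cd ((1 : I) : ℝ) * y.τ l a = y.τ l a
  rw [ha, hb, hc, hd]; ring

theorem compat_vert {x : Join k G} {i : Fin (k + 1)} (hx : x.τ i 1 ≠ 0) : Compat x (vert i) := by
  intro l a b ha hb
  obtain ⟨rfl, rfl⟩ := vert_τ i l b hb
  exact x.unique l a 1 ha hx

theorem compat_vert_vert (i j : Fin (k + 1)) : Compat (vert (G := G) i) (vert j) := by
  intro l a b ha hb
  rw [(vert_τ i l a ha).2, (vert_τ j l b hb).2]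

/-- the product of two charts has a motion planner -/
theorem planner_chart (i j : Fin (k + 1)) :
    HasPlanner {p : BG k G × BG k G | tB i p.1 ≠ 0 ∧ tB j p.2 ≠ 0} := by
  set W : Set (BG k G × BG k G) := {p | tB i p.1 ≠ 0 ∧ tB j p.2 ≠ 0} with hW
  set Γ : W × I → Join k G := fun z => seg (rho i z.1.1.1) (vert i) (vert j) (rho j z.1.1.2)
    (compat_vert (rho_τ i _ z.1.2.1)) (compat_vert_vert i j)
    (compat_vert (rho_τ j _ z.1.2.2)).symm z.2 with hΓ
  have hr1 : Continuous fun z : W × I => rho i z.1.1.1 := by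
    rw [continuous_iff_continuousAt]
    intro z
    have h1 : Continuous fun z : W × I => z.1.1.1 := by fun_prop
    exact ContinuousAt.comp (g := rho i) (rho_continuousAt i _ z.1.2.1) h1.continuousAt
  have hr2 : Continuous fun z : W × I => rho j z.1.1.2 := by
    rw [continuous_iff_continuousAt]
    intro z
    have h1 : Continuous fun z : W × I => z.1.1.2 := by fun_prop
    exact ContinuousAt.comp (g := rho j) (rho_continuousAt j _ z.1.2.2) h1.continuousAt
  have hcoef : Continuous ca ∧ Continuous cb ∧ Continuous cc ∧ Continuous cd := by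
    refine ⟨?_, ?_, ?_, ?_⟩
    · unfold ca; fun_prop
    · unfold cb; fun_prop
    · unfold cc; fun_prop
    · unfold cd; fun_prop
  obtain ⟨hca, hcb, hcc, hcd⟩ := hcoef
  have hs : Continuous fun z : W × I => (z.2 : ℝ) := by fun_prop
  have hΓc : Continuous Γ := by
    rw [Join.continuous_iff]
    refine ⟨fun l => ?_, fun l a => ?_⟩
    · simp only [hΓ, seg_t]
      have h1 := (Join.continuous_t (G := G) l).comp hr1
      have h2 := (Join.continuous_t (G := G) l).comp hr2
      simp only [Function.comp_def] at h1 h2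
      exact ((((hca.comp hs).mul h1).add ((hcb.comp hs).mul continuous_const)).add
        ((hcc.comp hs).mul continuous_const)).add ((hcd.comp hs).mul h2)
    · have h1 := (Join.continuous_τ (G := G) l a).comp hr1
      have h2 := (Join.continuous_τ (G := G) l a).comp hr2
      simp only [Function.comp_def] at h1 h2
      exact ((((hca.comp hs).mul h1).add ((hcb.comp hs).mul continuous_const)).add
        ((hcc.comp hs).mul continuous_const)).add ((hcd.comp hs).mul h2)
  have hpc : Continuous (proj k G) := (isQC k G).continuous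
  refine ⟨ContinuousMap.curry ⟨fun z => proj k G (Γ z), hpc.comp hΓc⟩, ?_⟩
  intro p
  constructor
  · change proj k G (Γ (p, 0)) = p.1.1
    simp only [hΓ]
    rw [seg_zero, rho_proj]
  · change proj k G (Γ (p, 1)) = p.1.2
    simp only [hΓ]
    rw [seg_one, rho_proj]

/-- partial sums of the barycentric coordinates -/
noncomputable def ps (n : ℕ) (b : BG k G) : ℝ :=
  ∑ l : Fin (k + 1), if (l : ℕ) < n then tB l b else 0

theorem ps_continuous (n : ℕ) : Continuous (ps (k := k) (G := G) n) := by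
  unfold ps
  refine continuous_finsetSum _ fun l _ => ?_
  split_ifs
  · exact tB_continuous l
  · exact continuous_const

theorem ps_mono (b : BG k G) {m n : ℕ} (h : m ≤ n) : ps m b ≤ ps n b := by
  unfold ps
  refine Finset.sum_le_sum fun l _ => ?_
  split_ifs with h1 h2
  · exact le_rfl
  · omega
  · exact tB_nonneg l b
  · exact le_rfl

theorem ps_succ (b : BG k G) (i : Fin (k + 1)) : ps (i + 1) b = ps i b + tB i b := by
  unfold ps
  have h1 : tB i b = ∑ l : Fin (k + 1), if l = i then tB l b else 0 := by simp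
  rw [h1, ← Finset.sum_add_distrib]
  refine Finset.sum_congr rfl fun l _ => ?_
  rcases lt_trichotomy (l : ℕ) i with h | h | h
  · have h2 : l ≠ i := by rintro rfl; omega
    rw [if_pos (by omega), if_pos h, if_neg h2, add_zero]
  · have h2 : l = i := Fin.ext h
    rw [if_pos (by omega), if_neg (by omega), if_pos h2, zero_add]
  · have h2 : l ≠ i := by rintro rfl; omega
    rw [if_neg (by omega), if_neg (by omega), if_neg h2, add_zero]

/-- the staircase cells -/
def cell (i j : Fin (k + 1)) : Set (BG k G × BG k G) :=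
  {p | max (ps i p.1) (ps j p.2) < min (ps (i + 1) p.1) (ps (j + 1) p.2)}

theorem cell_open (i j : Fin (k + 1)) : IsOpen (cell (G := G) i j) := by
  have h1 : ∀ n, Continuous fun p : BG k G × BG k G => ps n p.1 :=
    fun n => (ps_continuous n).comp continuous_fst
  have h2 : ∀ n, Continuous fun p : BG k G × BG k G => ps n p.2 :=
    fun n => (ps_continuous n).comp continuous_snd
  exact isOpen_lt ((h1 _).max (h2 _)) ((h1 _).min (h2 _))

theorem cell_sub (i j : Fin (k + 1)) :
    cell (G := G) i j ⊆ {p : BG k G × BG k G | tB i p.1 ≠ 0 ∧ tB j p.2 ≠ 0} := by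
  intro p hp
  have hp' : max (ps i p.1) (ps j p.2) < min (ps (i + 1) p.1) (ps (j + 1) p.2) := hp
  rw [max_lt_iff, lt_min_iff, lt_min_iff] at hp'
  obtain ⟨⟨h1, -⟩, -, h2⟩ := hp'
  rw [ps_succ] at h1 h2
  exact ⟨by intro h; rw [h] at h1; simp at h1, by intro h; rw [h] at h2; simp at h2⟩

theorem cell_disj_aux {i j i' j' : Fin (k + 1)} (hij : (i : ℕ) + j = i' + j') (hlt : (i : ℕ) < i')
    {p : BG k G × BG k G} (h : p ∈ cell (G := G) i j) (h' : p ∈ cell (G := G) i' j') : False := by
  have hp : max (ps i p.1) (ps j p.2) < min (ps (i + 1) p.1) (ps (j + 1) p.2) := h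
  have hp' : max (ps i' p.1) (ps j' p.2) < min (ps (i' + 1) p.1) (ps (j' + 1) p.2) := h'
  rw [max_lt_iff, lt_min_iff, lt_min_iff] at hp hp'
  obtain ⟨-, h1, -⟩ := hp
  obtain ⟨⟨-, h2⟩, -⟩ := hp'
  have h3 := ps_mono p.1 (show (i : ℕ) + 1 ≤ i' by omega)
  have h4 := ps_mono p.2 (show (j' : ℕ) + 1 ≤ j by omega)
  linarith

theorem cell_disj {i j i' j' : Fin (k + 1)} (hij : (i : ℕ) + j = i' + j')
    {p : BG k G × BG k G} (h : p ∈ cell (G := G) i j) (h' : p ∈ cell (G := G) i' j') :
    i = i' ∧ j = j' := by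
  rcases lt_trichotomy (i : ℕ) i' with h1 | h1 | h1
  · exact (cell_disj_aux hij h1 h h').elim
  · exact ⟨Fin.ext h1, Fin.ext (by omega)⟩
  · exact (cell_disj_aux hij.symm h1 h' h).elim

theorem exists_first (b : BG k G) : ∃ i : Fin (k + 1), ps i b = 0 ∧ 0 < tB i b := by
  classical
  have hne : (Finset.univ.filter fun i : Fin (k + 1) => tB i b ≠ 0).Nonempty := by
    obtain ⟨i, hi⟩ := exists_tB_ne b
    exact ⟨i, by simpa using hi⟩
  obtain ⟨i, hi, hmin⟩ := Finset.exists_min_image _ (fun i : Fin (k + 1) => (i : ℕ)) hne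
  refine ⟨i, ?_, lt_of_le_of_ne (tB_nonneg i b) (Ne.symm (Finset.mem_filter.1 hi).2)⟩
  unfold ps
  refine Finset.sum_eq_zero fun l _ => ?_
  split_ifs with h
  · by_contra h2
    have := hmin l (by simpa using h2)
    omega
  · rfl

theorem exists_cell (p : BG k G × BG k G) : ∃ i j, p ∈ cell (G := G) i j := by
  obtain ⟨i, hi0, hi⟩ := exists_first p.1
  obtain ⟨j, hj0, hj⟩ := exists_first p.2
  refine ⟨i, j, ?_⟩
  change max (ps i p.1) (ps j p.2) < min (ps (i + 1) p.1) (ps (j + 1) p.2)
  rw [ps_succ, ps_succ, hi0, hj0, max_self, zero_add, zero_add]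
  exact lt_min hi hj

/-- The upper bound. -/
theorem upper_bound (k : ℕ) (G : Type) [Group G] : TCLe (BG k G) (2 * k) := by
  refine ⟨fun m => {p | ∃ a : {a : Fin (k + 1) × Fin (k + 1) // (a.1 : ℕ) + a.2 = m},
    p ∈ cell a.1.1 a.1.2}, ?_, ?_, ?_⟩
  · intro m
    have : {p : BG k G × BG k G | ∃ a : {a : Fin (k + 1) × Fin (k + 1) // (a.1 : ℕ) + a.2 = m},
        p ∈ cell a.1.1 a.1.2} = ⋃ a : {a : Fin (k + 1) × Fin (k + 1) // (a.1 : ℕ) + a.2 = m},
        cell a.1.1 a.1.2 := by
      ext p; simp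
    change IsOpen {p : BG k G × BG k G | ∃ a : {a : Fin (k + 1) × Fin (k + 1) //
      (a.1 : ℕ) + a.2 = m}, p ∈ cell a.1.1 a.1.2}
    rw [this]
    exact isOpen_iUnion fun a => cell_open _ _
  · intro p
    obtain ⟨i, j, hij⟩ := exists_cell p
    have hi := i.2
    have hj := j.2
    exact ⟨⟨i + j, by omega⟩, ⟨(i, j), rfl⟩, hij⟩
  · intro m
    apply HasPlanner.glue
    · intro a
      exact cell_open _ _
    · rintro ⟨⟨i, j⟩, hij⟩ ⟨⟨i', j'⟩, hij'⟩ p hp hp'
      obtain ⟨rfl, rfl⟩ := cell_disj (hij.trans hij'.symm) hp hp'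
      rfl
    · intro a
      exact (planner_chart _ _).mono (cell_sub _ _)

end Pool.Agent.Helper94.TC
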